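import Pool.Agent.P.MP_e0c7cd_co.x.XE

namespace Pool.Agent.Mst

open Complex Real

variable {V : Type} {G : SimpleGraph V} {p : V → ℂ} {R : Rot G p} {o b : G.Dart} {k : ℂ}

/-- Corners at vertices of the face of `b` of triangles of class different from `k`. -/
noncomputable def Rot.cN (R : Rot G p) (o b : G.Dart) (k : ℂ) : ℕ :=
  {d | (R.Sh b o d ∧ R.Tri d ∧ ∃ e, R.phi.SameCycle b e ∧ e.snd = d.snd) ∧ ¬ cls p d = k}.ncard

theorem Rot.Two.ear_bounds [Fintype V] (h : R.Two o b) (hF : R.Facts o b k) (hs : R.Simple b)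
    (hJ : 1 ≤ R.flk k b) (hx : R.tS b o k + 3 * R.cS b o k = 3 * R.fl b + 6 * R.flk k b)
    (I : Set G.Dart) (hI : ∀ e ∈ I, R.phi.SameCycle b e ∧ cls p e = k)
    (hc : cnt (R.PC b o k) (reg p k I) + 2 ≤ 3 * I.ncard) :
    6 ≤ R.tS b o k ∧ R.cN o b k + 4 ≤ R.tS b o k := by
  classical
  set c : G.Dart → ℕ := fun e => cnt (R.PC b o k) (reg p k {e}) with hcd
  set I1 := I.toFinset.filter fun e => c e ≤ 2 with hI1
  have m1 : ∀ e ∈ I1, R.phi.SameCycle b e ∧ cls p e = k := fun e a =>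
    hI e (Set.mem_toFinset.1 (Finset.mem_filter.1 a).1)
  have h1 := cnt_sum hF.injB (R.PC b o k) I.toFinset fun e a => hI e (Set.mem_toFinset.1 a)
  rw [Set.coe_toFinset, ← Finset.sum_filter_add_sum_filter_not _ fun e => c e ≤ 2] at h1
  have h2 := cnt_sum hF.injB (R.PC b o k) I1 m1
  have h3 := Finset.sum_le_card_nsmul I1 c 2 fun e a => (Finset.mem_filter.1 a).2
  have h4 := Finset.card_nsmul_le_sum (I.toFinset.filter fun e => ¬ c e ≤ 2) c 3
    fun e a => not_le.1 (Finset.mem_filter.1 a).2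
  have h5 := Finset.card_filter_add_card_filter_not (s := I.toFinset) fun e => c e ≤ 2
  rw [← Set.ncard_eq_toFinset_card'] at h5
  simp only [smul_eq_mul] at h3 h4
  set I2 : Set G.Dart := {e | (R.phi.SameCycle b e ∧ cls p e = k) ∧ ¬ e ∈ I1} with hI2
  have m2 : ∀ e ∈ I2, R.phi.SameCycle b e ∧ cls p e = k := fun e a => a.1
  have sp : ∀ P : G.Dart → Prop,
      cnt P (R.side k b) = cnt P (reg p k (I1 : Set G.Dart)) + cnt P (reg p k I2) :=
    fun P => cnt_split P (fun v => ⟨fun a => by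
      obtain ⟨e, a1, a2⟩ := R.side_rep hJ a
      by_cases z : e ∈ I1
      exacts [Or.inl ⟨e, z, a2⟩, Or.inr ⟨e, ⟨a1, z⟩, a2⟩],
      fun a => a.elim (reg_side m1) (reg_side m2)⟩) fun v ⟨e, a1, a2⟩ ⟨f, a3, a4⟩ =>
      a3.2 (hF.injB e f (m1 e a1).1 a3.1.1 (m1 e a1).2 a3.1.2 (a2.trans a4.symm) ▸ a1)
  have e1 : R.tS b o k = cnt (R.PT b o k) (R.side k b) :=
    nc_congr fun d => by simp only [Rot.PT, and_assoc]
  have e2 : R.cS b o k = cnt (R.PC b o k) (R.side k b) :=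
    nc_congr fun d => by simp only [Rot.PC, and_assoc]
  have e3 : R.fl b = cnt (R.phi.SameCycle b) (R.side k b) :=
    nc_congr fun d => ⟨fun a => ⟨a, R.snd_mem_side k a⟩, fun a => a.1⟩
  have e4 : R.cN o b k = cnt (fun d => R.PT b o k d ∧ ∃ e, R.phi.SameCycle b e ∧ e.snd = d.snd)
      (R.side k b) :=
    nc_congr fun d => ⟨fun ⟨⟨a1, a2, e, a3, a4⟩, a5⟩ =>
      ⟨⟨⟨a1, a2, a5⟩, e, a3, a4⟩, a4 ▸ R.snd_mem_side k a3⟩,
      fun a => ⟨⟨a.1.1.1, a.1.1.2.1, a.1.2⟩, a.1.1.2.2⟩⟩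
  have e5 : R.flk k b = {e | (R.phi.SameCycle b e ∧ cls p e = k) ∧ e ∈ I1}.ncard + I2.ncard :=
    nc_split (fun e => R.phi.SameCycle b e ∧ cls p e = k) fun e => e ∈ I1
  have e6 : {e | (R.phi.SameCycle b e ∧ cls p e = k) ∧ e ∈ I1}.ncard = I1.card := by
    rw [← Set.ncard_coe_finset]
    exact nc_congr fun e => ⟨fun a => a.2, fun a => ⟨m1 e a, a⟩⟩
  obtain ⟨e0, -, he0⟩ := TSimple_ex R hJ
  have h6 := h.symm.sub_rank hF.symm e0 he0 I2 m2
  have h7 := h.symm.corner_le hs (I1 : Set G.Dart) m1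
  have h8 : cnt (fun d => R.PT b o k d ∧ ∃ e, R.phi.SameCycle b e ∧ e.snd = d.snd) (reg p k I2) ≤
      cnt (R.PT b o k) (reg p k I2) :=
    Set.ncard_le_ncard (fun d a => ⟨a.1.1, a.2⟩) (Set.toFinite _)
  have h9 : (I1 : Set G.Dart).ncard ≤ cnt (R.phi.SameCycle b) (reg p k (I1 : Set G.Dart)) :=
    Set.ncard_le_ncard (fun d a => ⟨(m1 d a).1, d, a, rfl⟩) (Set.toFinite _)
  rw [Set.ncard_coe_finset] at h7 h9
  rw [sp] at e1 e2 e3 e4
  change _ = I1.sum c + (I.toFinset.filter fun e => ¬ c e ≤ 2).sum c at h1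
  change _ = I1.sum c at h2
  change I1.card + _ = _ at h5
  omega

theorem Rot.Two.dich [Fintype V] (h : R.Two o b) (ht : 0 ≤ R.turn b) (e : G.Dart)
    (hJ : 1 ≤ R.flk (cls p e) b) :
    6 ≤ R.yS o b (cls p e) ∨ ((∀ d, ¬ R.Lat o b (cls p e) d) ∧
      (R.flk (cls p e) b ≤ R.yS o b (cls p e) ∨
        (6 ≤ R.tS b o (cls p e) ∧ R.cN o b (cls p e) + 4 ≤ R.tS b o (cls p e)))) := by
  have hF := h.facts e
  have hK := h.flk_pos ht
  obtain ⟨h1, h2, h3, -⟩ := h.exact e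
  have h4 := (h.class_bounds ht e).1
  have h5 := h.full_rank hF
  have h6 := h.symm.full_rank hF.symm
  have h7 := h.cS_eq (cls p e)
  by_cases hL : ∃ d, R.Lat o b (cls p e) d
  · obtain ⟨d, hd⟩ := hL
    have := h.u_le hF hd hJ (by omega)
    omega
  · have hL' : ∀ d, ¬ R.Lat o b (cls p e) d := fun d a => hL ⟨d, a⟩
    refine Or.inr ⟨hL', ?_⟩
    have h8 := h.u_le_y hF hL'
    have h9 := h.au_le hF
    have h10 := hF.tri
    rcases Nat.eq_zero_or_pos (R.aS b o (cls p e)) with ha | ha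
    · omega
    · obtain ⟨I, hI, hc⟩ := h.ear hF hL' (hK e) hJ (by omega) ha
      exact Or.inr (h.ear_bounds hF (h.simple_b h.facts hK) hJ h2 I hI hc)

end Pool.Agent.Mst
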