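import Pool.Agent.P.MP_e0c7cd_co.x.XS

namespace Pool.Agent.Mst

open Complex Real

variable {V : Type} {G : SimpleGraph V} {p : V → ℂ} {R : Rot G p} {o b : G.Dart} {k : ℂ}

theorem Rot.Two.side_or [Fintype V] (h : R.Two o b) (hL : ∀ d, ¬ R.Lat o b k d) (v : V) :
    v ∈ R.side k o ∨ v ∈ R.side k b := by
  classical
  by_contra hc
  have h1 := TComp_other h k (comp G p k v) hc
  obtain ⟨d, hd, ho⟩ := (Set.ncard_pos (Set.toFinite _)).1 (lt_of_lt_of_le (by decide) h1)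
  rw [not_or] at hc
  exact hL d ⟨⟨fun a => hc.1 ((side_of_comp hd).1 (R.snd_mem_side k a)),
    fun a => hc.2 ((side_of_comp hd).1 (R.snd_mem_side k a))⟩, ho.1, ho.2.1, ho.2.2.1⟩

theorem Rot.Two.u_le_y [Fintype V] (h : R.Two o b) (hF : R.Facts o b k)
    (hL : ∀ d, ¬ R.Lat o b k d) : R.uS b o k ≤ R.yS o b k := by
  classical
  refine Set.ncard_le_ncard_of_injOn R.phi (fun d a => ?_) R.phi.injective.injOn
  obtain ⟨a1, a2, a3, a4, a5, a6⟩ := a
  refine ⟨(R.sh_phi _ _ _).2 ((R.sh_comm _ _ _).1 a1), (a3.cls_phi h.hm).trans a2,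
    (h.side_or hL _).resolve_right a6, Or.inl ⟨a3.phi, ?_, ?_⟩⟩
  · rw [R.phi_fst]
    exact fun z => Set.disjoint_left.1 hF.disj z a5
  · rw [a3.phi_phi_snd]
    exact fun z => Set.disjoint_left.1 hF.disj z a4

theorem Rot.Two.au_le [Fintype V] (h : R.Two o b) (hF : R.Facts o b k) :
    R.aS o b k + 3 * R.uS o b k + R.aS b o k + 3 * R.uS b o k ≤ R.triK o b k := by
  classical
  have dj : ∀ v ∈ R.side k b, v ∉ R.side k o := fun v a c => Set.disjoint_left.1 hF.disj c a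
  simp only [Rot.aS, Rot.uS, Rot.triK, TFull_nc, Finset.mul_sum, ← Finset.sum_add_distrib]
  refine sum_avg3 R.phi _ _ fun d => ?_
  simp only [R.sh_phi, Rot.Tri.phi_iff, R.sh_comm b o]
  by_cases s : R.Sh o b d
  swap
  · simp [s]
  by_cases t : R.Tri d
  swap
  · simp [t]
  have d1 := dj d.fst
  have d2 := dj d.snd
  have d3 := dj (R.phi d).snd
  simp only [t.1, t.cls_phi h.hm, t.phi.cls_phi h.hm, R.phi_fst, t.phi_phi_snd]
  by_cases c0 : cls p d = k
  swap
  · simp [c0]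
  simp only [c0, s, t, true_and]
  clear * - d1 d2 d3
  by_cases b1 : d.fst ∈ R.side k b <;> by_cases b2 : d.snd ∈ R.side k b <;>
    by_cases b3 : (R.phi d).snd ∈ R.side k b <;> by_cases c1 : d.fst ∈ R.side k o <;>
    by_cases c2 : d.snd ∈ R.side k o <;> by_cases c3 : (R.phi d).snd ∈ R.side k o <;> simp_all

/-- Vertices on the side of `b` whose component receives no edge from the side of `o`. -/
def Rot.deep (R : Rot G p) (o b : G.Dart) (k : ℂ) : Set V :=
  {v | v ∈ R.side k b ∧ ∀ e : G.Dart, e.fst ∈ R.side k o → comp G p k e.snd ≠ comp G p k v}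

theorem inner_comp {u v : V} (h : comp G p k u = comp G p k v) :
    u ∈ R.deep o b k ↔ v ∈ R.deep o b k := by
  simp only [Rot.deep, Set.mem_ofPred_eq, h, side_of_comp h]

theorem Rot.Two.inner_card [Fintype V] (h : R.Two o b) (hF : R.Facts o b k)
    (hL : ∀ d, ¬ R.Lat o b k d) (hJ : 1 ≤ R.flk k b) :
    6 * R.flk k b + 2 * R.aS b o k ≤ 6 * R.uS b o k +
      12 * {e | (R.phi.SameCycle b e ∧ cls p e = k) ∧ e.snd ∈ R.deep o b k}.ncard := by
  classical
  have dj : ∀ v ∈ R.side k b, v ∉ R.side k o := fun v a c => Set.disjoint_left.1 hF.disj c a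
  set B := R.side k b with hB
  set X : Set G.Dart := {d | cls p d = k ∧ d.fst ∈ B ∧ d.snd ∈ B} with hX
  have nO : ∀ d ∈ X, ¬ R.phi.SameCycle o d := fun d hd a => dj _ hd.2.2 (R.snd_mem_side k a)
  have bX : ∀ d, R.phi.SameCycle b d → cls p d = k → d ∈ X := fun d a c =>
    ⟨c, R.fst_mem_side k a, R.snd_mem_side k a⟩
  obtain ⟨e0, he0, he0'⟩ := TSimple_ex R hJ
  have h1 := h.master X (fun d hd => hd.1)
    (fun d hd => ⟨(cls_symm d).trans hd.1, hd.2.2, hd.2.1⟩) ⟨e0, bX _ he0 he0'⟩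
    (fun d hd r c => ⟨r.cls_phi_phi.trans hd.1, (side_of_comp (r.comp_opp c).1).2 hd.2.2,
      (side_of_comp (r.comp_opp c).2).2 hd.2.1⟩) nO 0 (Or.inl rfl)
  have h0 : {d | R.phi.SameCycle b d ∧ d ∈ X}.ncard = R.flk k b :=
    nc_congr fun d => ⟨fun a => ⟨a.1, a.2.1⟩, fun a => ⟨a.1, bX d a.1 a.2⟩⟩
  have h2 : 4 * {d | (R.Sh o b d ∧ R.Tri d) ∧
      (d ∈ X ∨ R.phi d ∈ X ∨ R.phi (R.phi d) ∈ X)}.ncard + 2 * R.aS b o k ≤
      6 * {d | (R.Sh o b d ∧ R.Tri d) ∧ d ∈ X}.ncard + 6 * R.uS b o k := by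
    simp only [Rot.aS, Rot.uS, TFull_nc, Finset.mul_sum, ← Finset.sum_add_distrib]
    refine sum_avg3 R.phi _ _ fun d => ?_
    simp only [R.sh_phi, Rot.Tri.phi_iff, R.sh_comm b o]
    by_cases s : R.Sh o b d
    swap
    · simp [s]
    by_cases t : R.Tri d
    swap
    · simp [t]
    simp only [t.1, hX, Set.mem_ofPred_eq, t.cls_phi h.hm, t.phi.cls_phi h.hm, R.phi_fst,
      t.phi_phi_snd, ← hB]
    by_cases c0 : cls p d = k <;> by_cases b1 : d.fst ∈ B <;> by_cases b2 : d.snd ∈ B <;>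
      by_cases b3 : (R.phi d).snd ∈ B <;> simp [c0, s, t, b1, b2, b3]
  have h3 : {d | R.Lat o b k d ∧ (d ∈ X ∨ R.phi d ∈ X ∨ R.phi (R.phi d) ∈ X ∨
        R.phi (R.phi (R.phi d)) ∈ X)}.ncard = 0 := by simp [hL]
  have nk : ∀ d, cls p d ≠ k → d ∈ Xᶜ := fun d a c => a c.1
  set I := {e | (R.phi.SameCycle b e ∧ cls p e = k) ∧ e.snd ∈ R.deep o b k}
  have h6 := const_le_reps Xᶜ (insert o.snd ((fun d : G.Dart => d.snd) '' I)) fun f hf h0 v => by
    have zo : ∀ v ∈ R.side k o, f v = 0 := fun v hv => by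
      rw [R.const_side nk (fun d a c => nO d c a) hf hv]
      exact h0 _ (Set.mem_insert _ _)
    rcases h.side_or hL v with c1 | c1
    · exact zo v c1
    by_cases c2 : v ∈ R.deep o b k
    · obtain ⟨e, a, c⟩ := R.side_rep hJ c1
      rw [← const_comp nk hf c]
      exact h0 _ (Set.mem_insert_of_mem _ ⟨e, ⟨a, (inner_comp c).2 c2⟩, rfl⟩)
    · obtain ⟨e, a, c⟩ : ∃ e : G.Dart, e.fst ∈ R.side k o ∧ comp G p k e.snd = comp G p k v := by
        by_contra z
        exact c2 ⟨c1, fun e a c => z ⟨e, a, c⟩⟩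
      rw [← const_comp nk hf c, ← hf e fun z => dj _ z.2.1 a]
      exact zo _ a
  have h7 := Set.ncard_insert_le o.snd ((fun d : G.Dart => d.snd) '' I)
  have h9 : ((fun d : G.Dart => d.snd) '' I).ncard ≤ I.ncard :=
    Set.ncard_image_le (Set.toFinite _)
  omega

theorem Rot.Two.inner_adj [Fintype V] (h : R.Two o b) (hL : ∀ d, ¬ R.Lat o b k d) {d : G.Dart}
    (hd : d.snd ∈ R.deep o b k) : d.fst ∈ R.side k b :=
  (h.side_or hL _).resolve_left fun a => hd.2 d a rfl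

theorem Rot.Two.two_out [Fintype V] (h : R.Two o b) (hF : R.Facts o b k)
    (hL : ∀ d, ¬ R.Lat o b k d) (hK : 1 ≤ R.flk k o) (hJ : 1 ≤ R.flk k b) (ha : 0 < R.aS b o k) :
    ∃ d, (R.Sh b o d ∧ cls p d = k ∧ R.Tri d ∧ d.fst ∈ R.side k b ∧ d.snd ∈ R.side k b ∧
      (R.phi d).snd ∈ R.side k b) ∧ d.fst ∉ R.deep o b k ∧ d.snd ∉ R.deep o b k := by
  classical
  by_contra hno
  set N := R.deep o b k with hN
  have hno' : ∀ d, R.Sh b o d ∧ cls p d = k ∧ R.Tri d ∧ d.fst ∈ R.side k b ∧ d.snd ∈ R.side k b ∧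
      (R.phi d).snd ∈ R.side k b → d.fst ∈ N ∨ d.snd ∈ N := fun d a => by
    by_contra z
    exact hno ⟨d, a, not_or.1 z⟩
  have tri : ∀ d, R.Sh o b d → cls p d = k → R.Tri d → (R.phi d).snd ∈ N →
      d.fst ∈ N ∨ d.snd ∈ N := fun d s c t a => by
    refine hno' d ⟨(R.sh_comm _ _ _).1 s, c, t, ?_, ?_, a.1⟩
    · rw [← t.phi_phi_snd]
      exact h.inner_adj hL (d := (R.phi (R.phi d)).symm) (by
        change (R.phi (R.phi d)).fst ∈ _
        rw [R.phi_fst]
        exact a)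
    · rw [← R.phi_fst]
      exact h.inner_adj hL a
  have mix : ∀ d, R.Sh o b d → cls p d = k → R.Rho d → cls p (R.phi d) ≠ k :=
    fun d s c r z => hL d ⟨s, r, c, z⟩
  have nO : ∀ d, R.phi.SameCycle o d → d.snd ∉ N := fun d a c =>
    Set.disjoint_left.1 hF.disj (R.snd_mem_side k a) c.1
  have nO' : ∀ d, R.phi.SameCycle o d → d.fst ∉ N := fun d a c =>
    Set.disjoint_left.1 hF.disj (R.fst_mem_side k a) c.1
  by_cases hx : ∃ e, R.phi.SameCycle b e ∧ cls p e = k ∧ e.fst ∉ N ∧ e.snd ∉ N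
  · have flow : ∀ e, R.phi.SameCycle b e → cls p e = k → e.fst ∉ N → e.snd ∉ N →
        ∀ f, R.phi.SameCycle b f → cls p f = k → comp G p k f.fst = comp G p k e.snd →
          f.snd ∉ N := by
      intro e e1 e2 e3 e4 f f1 f2 f3 f4
      have a1 : {d : G.Dart | cls p d = k ∧ d.fst ∈ N ∧ comp G p k d.snd = comp G p k e.snd}.ncard =
          {d : G.Dart | cls p d = k ∧ d.snd ∈ N ∧ comp G p k d.fst = comp G p k e.snd}.ncard :=
        nc_perm (symmPerm G) fun d => ⟨fun a => ⟨(cls_symm d).trans a.1, a.2⟩,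
          fun a => ⟨(cls_symm d).symm.trans a.1, a.2⟩⟩
      rw [h.split3, h.split3 fun d => cls p d = k ∧ d.snd ∈ N ∧ _] at a1
      have a2 : {d : G.Dart | R.phi.SameCycle o d ∧ cls p d = k ∧ d.fst ∈ N ∧
          comp G p k d.snd = comp G p k e.snd}.ncard = 0 := by
        rw [Set.ncard_eq_zero (Set.toFinite _), Set.eq_empty_iff_forall_notMem]
        exact fun d a => nO' d a.1 a.2.2.1
      have a3 : {d : G.Dart | R.phi.SameCycle b d ∧ cls p d = k ∧ d.fst ∈ N ∧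
          comp G p k d.snd = comp G p k e.snd}.ncard = 0 := by
        rw [Set.ncard_eq_zero (Set.toFinite _), Set.eq_empty_iff_forall_notMem]
        exact fun d a => e3 (hF.injB d e a.1 e1 a.2.1 e2 a.2.2.2 ▸ a.2.2.1)
      have a4 : {d : G.Dart | (R.Sh o b d ∧ R.Tri d) ∧ cls p d = k ∧ d.fst ∈ N ∧
          comp G p k d.snd = comp G p k e.snd}.ncard ≤
          {d : G.Dart | (R.Sh o b d ∧ R.Tri d) ∧ cls p d = k ∧ d.snd ∈ N ∧
          comp G p k d.fst = comp G p k e.snd}.ncard := by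
        refine Set.ncard_le_ncard_of_injOn R.phi (fun d a => ?_) R.phi.injective.injOn
        obtain ⟨⟨s, t⟩, c, z1, z2⟩ := a
        have s' := (R.sh_phi _ _ _).2 s
        have c' := (t.cls_phi h.hm).trans c
        refine ⟨⟨s', t.phi⟩, c', ?_, by rw [R.phi_fst]; exact z2⟩
        refine (tri _ s' c' t.phi (by rw [t.phi_phi_snd]; exact z1)).resolve_left ?_
        rw [R.phi_fst]
        exact fun z => e4 ((inner_comp z2).1 z)
      have a5 : {d : G.Dart | (R.Sh o b d ∧ R.Rho d) ∧ cls p d = k ∧ d.fst ∈ N ∧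
          comp G p k d.snd = comp G p k e.snd}.ncard ≤
          {d : G.Dart | (R.Sh o b d ∧ R.Rho d) ∧ cls p d = k ∧ d.snd ∈ N ∧
          comp G p k d.fst = comp G p k e.snd}.ncard := by
        refine Set.ncard_le_ncard_of_injOn (fun d => R.phi (R.phi d)) (fun d a => ?_)
          (R.phi.injective.comp R.phi.injective).injOn
        obtain ⟨⟨s, r⟩, c, z1, z2⟩ := a
        have := r.comp_opp (mix d s c r)
        exact ⟨⟨(R.sh_phi _ _ _).2 ((R.sh_phi _ _ _).2 s), r.phi.phi⟩, r.cls_phi_phi.trans c,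
          (inner_comp this.2).2 z1, this.1.trans z2⟩
      have a6 : 0 < {d : G.Dart | R.phi.SameCycle b d ∧ cls p d = k ∧ d.snd ∈ N ∧
          comp G p k d.fst = comp G p k e.snd}.ncard :=
        (Set.ncard_pos (Set.toFinite _)).2 ⟨f, f1, f2, f4, f3⟩
      omega
    obtain ⟨e, e1, e2, e3, e4⟩ := hx
    have all : ∀ d, R.phi.SameCycle b d → d.snd ∉ N := fun d hd => by
      obtain ⟨-, a, a1, a2⟩ := TY_orbit R.phi (fun d => R.phi.SameCycle b d ∧
        ∃ e, (R.phi.SameCycle b e ∧ cls p e = k ∧ e.fst ∉ N ∧ e.snd ∉ N) ∧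
          comp G p k e.snd = comp G p k d.snd) (fun x ⟨x1, a, a1, a2⟩ => by
          have x2 := (R.same_phi b x).2 x1
          refine ⟨x2, ?_⟩
          by_cases c : cls p (R.phi x) = k
          · refine ⟨_, ⟨x2, c, ?_, flow a a1.1 a1.2.1 a1.2.2.1 a1.2.2.2 _ x2 c ?_⟩, rfl⟩
            · rw [R.phi_fst]
              exact fun z => a1.2.2.2 ((inner_comp a2).2 z)
            · rw [R.phi_fst, a2]
          · exact ⟨a, a1, a2.trans (comp_phi R c).symm⟩)
        ⟨e1, e, ⟨e1, e2, e3, e4⟩, rfl⟩ (e1.symm.trans hd)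
      exact fun z => a1.2.2.2 ((inner_comp a2).2 z)
    have emp : ∀ v, v ∉ N := fun v hv => by
      obtain ⟨d, hd, hq⟩ := hv.1
      exact all d hd ((inner_comp hq).2 hv)
    obtain ⟨d, hd⟩ := (Set.ncard_pos (Set.toFinite _)).1 ha
    exact (hno' d hd).elim (emp _) (emp _)
  · have hx' : ∀ e, R.phi.SameCycle b e → cls p e = k → e.fst ∈ N ∨ e.snd ∈ N := fun e a c => by
      by_contra z
      exact hx ⟨e, a, c, not_or.1 z⟩
    let P : G.Dart → Prop := fun d => ∃ e, R.phi.SameCycle d e ∧ e.snd ∈ N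
    have hPk : ∀ d, cls p d = k → (P d ↔ d.fst ∈ N ∨ d.snd ∈ N) := by
      intro d hk
      constructor
      · rintro ⟨e, he, hn⟩
        by_cases hb : R.phi.SameCycle b d
        · exact hx' d hb hk
        have s : R.Sh o b d := ⟨fun a => nO e (a.trans he) hn, hb⟩
        rcases h.good d s with t | r
        · rcases TY_orbit R.phi (fun x => x = d ∨ x = R.phi d ∨ x = R.phi (R.phi d))
            (by
              rintro x (rfl | rfl | rfl)
              exacts [Or.inr (Or.inl rfl), Or.inr (Or.inr rfl), Or.inl t.1]) (Or.inl rfl) he with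
            rfl | rfl | rfl
          exacts [Or.inr hn, tri d s hk t hn, Or.inl (t.phi_phi_snd ▸ hn)]
        · rcases TY_orbit R.phi
            (fun x => x = d ∨ x = R.phi d ∨ x = R.phi (R.phi d) ∨ x = R.phi (R.phi (R.phi d)))
            (by
              rintro x (rfl | rfl | rfl | rfl)
              exacts [Or.inr (Or.inl rfl), Or.inr (Or.inr (Or.inl rfl)),
                Or.inr (Or.inr (Or.inr rfl)), Or.inl r.1]) (Or.inl rfl) he with
            rfl | rfl | rfl | rfl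
          exacts [Or.inr hn, Or.inr ((inner_comp (comp_phi R (mix d s hk r))).1 hn),
            Or.inl ((inner_comp (r.comp_opp (mix d s hk r)).2).1 hn),
            Or.inl (r.phi_phi_phi_snd ▸ hn)]
      · rintro (a | a)
        · refine ⟨R.phi.symm d, (R.same_symm d d).2 (Equiv.Perm.SameCycle.refl _ _), ?_⟩
          rw [← R.phi_fst, Equiv.apply_symm_apply]
          exact a
        · exact ⟨d, Equiv.Perm.SameCycle.refl _ _, a⟩
    obtain ⟨x, x1, x2⟩ := TSimple_ex R hK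
    obtain ⟨y, y1, y2⟩ := TSimple_ex R hJ
    have hkl := hF.kl (fun d => if P d then 1 else 0)
      (fun d => by simp only [P, Equiv.Perm.sameCycle_apply_left])
      (fun d hk => by
        have : P d.symm ↔ P d := by
          rw [hPk d hk, hPk d.symm ((cls_symm d).trans hk)]
          exact or_comm
        simp only [this]) x y x2 y2
    have hx0 : ¬ P x := fun hP => ((hPk x x2).1 hP).elim (nO' x x1) (nO x x1)
    simp only [hx0, (hPk y y2).2 (hx' y y1 y2), if_true, if_false] at hkl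
    exact zero_ne_one hkl

theorem Rot.Two.ear [Fintype V] (h : R.Two o b) (hF : R.Facts o b k)
    (hL : ∀ d, ¬ R.Lat o b k d) (hK : 1 ≤ R.flk k o) (hJ : 1 ≤ R.flk k b)
    (hr : R.aS b o k + 3 * R.uS b o k ≤ 3 * R.flk k b) (ha : 0 < R.aS b o k) :
    ∃ I : Set G.Dart, (∀ e ∈ I, R.phi.SameCycle b e ∧ cls p e = k) ∧
      cnt (R.PC b o k) (reg p k I) + 2 ≤ 3 * I.ncard := by
  classical
  refine ⟨{e | (R.phi.SameCycle b e ∧ cls p e = k) ∧ e.snd ∈ R.deep o b k}, fun e a => a.1, ?_⟩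
  have h1 := h.inner_card hF hL hJ
  obtain ⟨d, ⟨d1, d2, d3, d4, d5, d6⟩, d7, d8⟩ := h.two_out hF hL hK hJ ha
  set I := {e | (R.phi.SameCycle b e ∧ cls p e = k) ∧ e.snd ∈ R.deep o b k}
  have hr : ∀ v ∈ reg p k I, v ∈ R.deep o b k := fun v ⟨e, a, c⟩ => (inner_comp c).1 a.2
  have h2 : (insert d (insert (R.phi (R.phi d))
      {x | R.PC b o k x ∧ x.snd ∈ reg p k I})).ncard ≤ R.aS b o k := by
    refine Set.ncard_le_ncard ?_ (Set.toFinite _)
    rintro x (rfl | rfl | ⟨⟨a1, a2, a3⟩, a4⟩)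
    · exact ⟨d1, d2, d3, d4, d5, d6⟩
    · exact ⟨(R.sh_phi _ _ _).2 ((R.sh_phi _ _ _).2 d1),
        (d3.phi.cls_phi h.hm).trans ((d3.cls_phi h.hm).trans d2), d3.phi.phi,
        by rw [R.phi_fst]; exact d6, by rw [d3.phi_phi_snd]; exact d4, by rw [d3.1]; exact d5⟩
    · have a5 := hr _ a4
      refine ⟨a1, a2, a3.resolve_right fun z => hL x ⟨(R.sh_comm _ _ _).1 a1, z.1, z.2.1, z.2.2.1⟩,
        h.inner_adj hL a5, a5.1, h.inner_adj hL (d := (R.phi x).symm) ?_⟩
      change (R.phi x).fst ∈ _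
      rw [R.phi_fst]
      exact a5
  rw [Set.ncard_insert_of_notMem, Set.ncard_insert_of_notMem] at h2
  · unfold cnt
    omega
  · exact fun z => d7 (d3.phi_phi_snd ▸ hr _ z.2)
  · rintro (z | z)
    · exact d.adj.ne (d3.phi_phi_snd.symm.trans (congrArg (fun x : G.Dart => x.snd) z).symm)
    · exact d8 (hr _ z.2)

end Pool.Agent.Mst
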