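import Pool.Agent.P.MP_e0c7cd_co.x.XW

namespace Pool.Agent.Mst

open Complex Real

variable {V : Type} {G : SimpleGraph V} {p : V → ℂ} {R : Rot G p} {o b : G.Dart}

theorem Rot.Two.main60 [Fintype V] (h : R.Two o b) (ht : 0 ≤ R.turn b) :
    60 ≤ Fintype.card V := by
  classical
  set C : Finset ℂ := Finset.univ.image (fun d : G.Dart => cls p d) with hCdef
  have hC : ∀ d : G.Dart, cls p d ∈ C := fun d => Finset.mem_image_of_mem _ (Finset.mem_univ d)
  have hC' : ∀ k ∈ C, ∃ e : G.Dart, cls p e = k := fun k hk => by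
    obtain ⟨e, -, he⟩ := Finset.mem_image.1 hk
    exact ⟨e, he⟩
  clear_value C
  have hK := h.flk_pos ht
  have so := h.simple_o h.facts hK
  have sb := h.simple_b h.facts hK
  have hw := h.weight h.facts so sb
  have sJ : R.fl b = ∑ k ∈ C, R.flk k b := nc_sum (cls p) C hC _
  have sK : R.fl o = ∑ k ∈ C, R.flk k o := nc_sum (cls p) C hC _
  have s1 : {d | R.Sh b o d ∧ (R.Tri d ∨ R.Acu (cls p d) d) ∧ d.snd ∈ R.side (cls p d) b}.ncard =
      ∑ k ∈ C, R.cS b o k := by
    rw [nc_sum (cls p) C hC]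
    refine Finset.sum_congr rfl fun k _ => nc_congr fun d => ?_
    constructor
    · rintro ⟨⟨a1, a2, a3⟩, rfl⟩
      exact ⟨a1, rfl, a2, a3⟩
    · rintro ⟨a1, rfl, a2, a3⟩
      exact ⟨⟨a1, a2, a3⟩, rfl⟩
  rw [s1] at hw
  set cB := {d | R.Sh b o d ∧ R.Tri d ∧ ∃ e, R.phi.SameCycle b e ∧ e.snd = d.snd}.ncard with hcB
  set cK : ℂ → ℕ := fun k => {d | (R.Sh b o d ∧ R.Tri d ∧
    ∃ e, R.phi.SameCycle b e ∧ e.snd = d.snd) ∧ cls p d = k}.ncard with hcK
  have s3 : cB = ∑ k ∈ C, cK k := nc_sum (cls p) C hC _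
  have hF : ∀ k ∈ C, R.Facts o b k := fun k hk => by
    obtain ⟨e, rfl⟩ := hC' k hk
    exact h.facts e
  have A : ∀ k ∈ C, 3 * R.flk k b + 6 ≤ R.cS b o k ∧
      R.tS b o k + 3 * R.flk k b + 18 ≤ 3 * R.fl b ∧ 6 + R.yS o b k ≤ R.flk k o ∧
      cB = cK k + R.cN o b k ∧ R.cN o b k ≤ R.tS b o k ∧ (R.flk k b = 0 ∨ 1 ≤ R.yS o b k) := by
    intro k hk
    obtain ⟨e, rfl⟩ := hC' k hk
    obtain ⟨a1, a2, a3⟩ := h.class_bounds ht e
    refine ⟨a1, a2, a3, nc_split _ _, Set.ncard_le_ncard ?_ (Set.toFinite _),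
      (Nat.eq_zero_or_pos _).imp id (h.y_pos (h.facts e) (hK e))⟩
    rintro d ⟨⟨a1, a2, e', a3, a4⟩, a5⟩
    exact ⟨a1, a2, a5, a4 ▸ R.snd_mem_side _ a3⟩
  have D : ∀ k ∈ C, R.flk k b = 0 ∨ 6 ≤ R.yS o b k ∨ ((∀ d, ¬ R.Lat o b k d) ∧
      (R.flk k b ≤ R.yS o b k ∨ (6 ≤ R.tS b o k ∧ R.cN o b k + 4 ≤ R.tS b o k))) := by
    intro k hk
    obtain ⟨e, rfl⟩ := hC' k hk
    exact (Nat.eq_zero_or_pos _).imp id (h.dich ht e)
  have D' : ∀ k ∈ C, R.flk k b = 0 ∨ 6 ≤ R.yS o b k ∨
      (R.flk k b ≤ R.yS o b k ∨ (6 ≤ R.tS b o k ∧ R.cN o b k + 4 ≤ R.tS b o k)) :=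
    fun k hk => (D k hk).imp id (Or.imp id And.right)
  rcases Nat.lt_or_ge 3 C.card with hm | hm
  · have s2 : 3 * R.fl b + 6 * C.card ≤ ∑ k ∈ C, R.cS b o k := by
      rw [sJ, Finset.mul_sum, mul_comm 6, ← smul_eq_mul, ← Finset.sum_const,
        ← Finset.sum_add_distrib]
      exact Finset.sum_le_sum fun k hk => (A k hk).1
    have s4 : C.card * (cB + 18) + 3 * R.fl b ≤ C.card * (3 * R.fl b) + cB := by
      conv_lhs => rw [sJ]
      conv_rhs => rw [s3]
      rw [Finset.mul_sum, ← smul_eq_mul, ← smul_eq_mul C.card, ← Finset.sum_const,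
        ← Finset.sum_const, ← Finset.sum_add_distrib, ← Finset.sum_add_distrib]
      refine Finset.sum_le_sum fun k hk => ?_
      have := A k hk
      omega
    have s5 : 6 * C.card + ∑ k ∈ C, R.yS o b k ≤ R.fl o := by
      rw [sK, mul_comm 6, ← smul_eq_mul, ← Finset.sum_const, ← Finset.sum_add_distrib]
      exact Finset.sum_le_sum fun k hk => (A k hk).2.2.1
    have s6 : R.fl b ≤ (R.fl b - 6) * ∑ k ∈ C, R.yS o b k := by
      conv_lhs => rw [sJ]
      rw [Finset.mul_sum]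
      refine Finset.sum_le_sum fun k hk => ?_
      have := A k hk
      rcases this.2.2.2.2.2 with z | z
      · omega
      · exact le_trans (by omega) (Nat.le_mul_of_pos_right _ z)
    have s7 : 6 ≤ R.fl b := by
      have := A _ (hC b)
      omega
    have s8 : 12 ≤ R.fl b + ∑ k ∈ C, R.yS o b k ∨ 4 ≤ ∑ k ∈ C, R.yS o b k := by
      generalize ∑ k ∈ C, R.yS o b k = y at s6 ⊢
      by_contra z
      obtain rfl | rfl | rfl | rfl : y = 0 ∨ y = 1 ∨ y = 2 ∨ y = 3 := by omega
      all_goals omega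
    rcases Nat.lt_or_ge 4 C.card with hm4 | hm4
    · have t1 : cB + 19 ≤ 3 * R.fl b := by
        by_contra hc
        obtain ⟨m, hm'⟩ : ∃ m, C.card = m + 1 := ⟨C.card - 1, by omega⟩
        rw [hm'] at s4
        have : m * (3 * R.fl b) ≤ m * (cB + 18) := Nat.mul_le_mul_left _ (by omega)
        nlinarith
      omega
    · have hm' : C.card = 4 := by omega
      rw [hm'] at s2 s4 s5
      omega
  rcases Nat.lt_or_ge 2 C.card with hm2 | hm2
  · obtain ⟨x, y, z, hxy, hxz, hyz, rfl⟩ := Finset.card_eq_three.1 (by omega : C.card = 3)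
    have mx : x ∈ ({x, y, z} : Finset ℂ) := by simp
    have my : y ∈ ({x, y, z} : Finset ℂ) := by simp
    have mz : z ∈ ({x, y, z} : Finset ℂ) := by simp
    have nx : x ∉ ({y, z} : Finset ℂ) := by simp [hxy, hxz]
    rw [Finset.sum_insert nx, Finset.sum_pair hyz] at sJ sK hw s3
    have y3 : ¬ (R.yS o b x = 1 ∧ R.yS o b y = 1 ∧ R.yS o b z = 1) := fun a =>
      h.y_three hxy hxz hyz (fun d => by simpa using hC d) (hF x mx) (hF y my) (hF z mz)
        a.1 a.2.1 a.2.2
    have ax := A x mx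
    have ay := A y my
    have az := A z mz
    by_cases hJ : R.fl b = 9 ∧ R.yS o b x < 6 ∧ R.yS o b y < 6 ∧ R.yS o b z < 6
    · have dx := ((D x mx).resolve_left (by omega)).resolve_left (by omega)
      have dy := ((D y my).resolve_left (by omega)).resolve_left (by omega)
      have dz := ((D z mz).resolve_left (by omega)).resolve_left (by omega)
      have := h.parity so sb hxy hxz hyz (hF x mx) (hF y my) (hF z mz) dx.1 dy.1 dz.1
        (by omega) (by omega) (by omega)
      have := dx.2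
      have := dy.2
      have := dz.2
      omega
    · have dx := D' x mx
      have dy := D' y my
      have dz := D' z mz
      obtain ⟨x1, x2, x3, x4, x5, x6⟩ := ax
      obtain ⟨y1, y2, y4, y5, y6, y7⟩ := ay
      obtain ⟨z1, z2, z3, z4, z5, z6⟩ := az
      have k1 : 2 * R.fl b + 81 + 2 * (R.yS o b x + R.yS o b y + R.yS o b z) + 3 * R.fl b ≤
          2 * Fintype.card V + cB + 27 := by omega
      have k2 : 2 * cB = R.cN o b x + R.cN o b y + R.cN o b z := by omega
      clear * - k1 k2 sJ x2 y2 z2 x5 y6 z5 x6 y7 z6 dx dy dz hJ y3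
      rcases dx with dx | dx | dx | dx <;> rcases dy with dy | dy | dy | dy <;>
        rcases dz with dz | dz | dz | dz <;> omega
  obtain ⟨e, he1, he2⟩ : ∃ e, R.phi.SameCycle b e ∧ ¬ cls p e = cls p b := by
    have b1 := (h.class_bounds ht b).2.1
    have b2 := nc_split (fun d => R.phi.SameCycle b d) (fun d => cls p d = cls p b)
    have b3 : 0 < {d | R.phi.SameCycle b d ∧ ¬ cls p d = cls p b}.ncard := by
      simp only [Rot.fl, Rot.flk] at b1
      omega
    exact (Set.ncard_pos (Set.toFinite _)).1 b3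
  have hCeq : ({cls p e, cls p b} : Finset ℂ) = C :=
    Finset.eq_of_subset_of_card_le (fun k hk => by
      rcases Finset.mem_insert.1 hk with rfl | hk
      · exact hC e
      · rw [Finset.mem_singleton.1 hk]
        exact hC b) (by rw [Finset.card_pair he2]; exact hm2)
  have hall : ∀ d : G.Dart, cls p d = cls p e ∨ cls p d = cls p b := fun d => by
    have := hC d
    rw [← hCeq] at this
    simpa using this
  have z1 := h.y_two ht he1 he2 hall
  have z2 := h.y_two ht (Equiv.Perm.SameCycle.refl _ _) (fun x => he2 x.symm)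
    fun d => (hall d).symm
  rw [← hCeq, Finset.sum_pair he2] at sJ sK hw s3
  have ax := A _ (hC e)
  have ay := A _ (hC b)
  have dx := D' _ (hC e)
  have dy := D' _ (hC b)
  omega

theorem Rot.Two.bound60 [Fintype V] (h : R.Two o b) : 60 ≤ Fintype.card V := by
  have h1 := h.turn_sum h.tri_eq.1
  rcases le_total 0 (R.turn b) with ht | ht
  · exact h.main60 ht
  · exact h.symm.main60 (by linarith)

end Pool.Agent.Mst
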