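import Pool.Agent.P.MP_e0c7cd_co.x.XT

namespace Pool.Agent.Mst.Ring

open Complex Real

noncomputable def ze : ℂ := Complex.exp ((π / 6 : ℝ) * I)

noncomputable def ev (t : Z4) : ℂ := t.1 + t.2.1 * ze + t.2.2.1 * ze ^ 2 + t.2.2.2 * ze ^ 3

theorem ze_eq : ze = ⟨√3 / 2, 1 / 2⟩ := by
  apply Complex.ext
  · rw [ze, Complex.exp_ofReal_mul_I_re, Real.cos_pi_div_six]
  · rw [ze, Complex.exp_ofReal_mul_I_im, Real.sin_pi_div_six]

theorem s3 : √3 * √3 = 3 := Real.mul_self_sqrt (by norm_num)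

theorem ze2 : ze ^ 2 = ⟨1 / 2, √3 / 2⟩ := by
  rw [ze_eq, pow_two]
  apply Complex.ext <;> simp only [Complex.mul_re, Complex.mul_im] <;> linarith [s3]

theorem ze3 : ze ^ 3 = I := by
  rw [pow_succ, ze2, ze_eq]
  apply Complex.ext <;> simp only [Complex.mul_re, Complex.mul_im, I_re, I_im] <;> linarith [s3]

theorem ze4 : ze ^ 4 = ze ^ 2 - 1 := by
  rw [pow_succ, ze3, ze2, ze_eq]
  apply Complex.ext <;> simp
  norm_num

theorem ze12 : ze ^ 12 = 1 := by
  rw [show 12 = 3 * 4 from rfl, pow_mul, ze3, I_pow_four]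

theorem norm_ze (n : ℕ) : ‖ze ^ n‖ = 1 := by
  rw [norm_pow, ze, Complex.norm_exp_ofReal_mul_I, one_pow]

theorem ev_iter (j : ℕ) (t : Z4) : ev (rot^[j] t) = ze ^ j * ev t := by
  induction j with
  | zero => simp
  | succ j ih =>
    rw [Function.iterate_succ_apply', pow_succ', mul_assoc, ← ih]
    simp only [ev, rot]
    push_cast
    linear_combination (-((rot^[j] t).2.2.2 : ℂ)) * ze4

theorem ev_sub (s t : Z4) : ev (s - t) = ev s - ev t := by
  simp only [ev, Prod.fst_sub, Prod.snd_sub]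
  push_cast
  ring

theorem ev_re (t : Z4) : 2 * (ev t).re = 2 * t.1 + √3 * t.2.1 + t.2.2.1 := by
  rw [ev, ze3, ze2, ze_eq]
  simp
  ring

theorem ccw_ze {a b : ℕ} (ha : a < 12) (hb : b < 12) :
    ccw (ze ^ a) (ze ^ b) = (((b + 11 - a) % 12 + 1 : ℕ) : ℝ) * (π / 6) := by
  have hp := Real.pi_pos
  have h1 : (((b + 11 - a) % 12 + 1 : ℕ) : ℝ) ≤ (12 : ℕ) := Nat.cast_le.2 (by omega)
  refine ccw_eq (norm_ze a) (norm_ze b) (by positivity) (by push_cast at h1 ⊢; nlinarith) ?_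
  rw [Complex.ofReal_mul, Complex.ofReal_natCast, mul_assoc, Complex.exp_nat_mul, ← ze, ← pow_add,
    pow_eq_pow_mod _ ze12]
  congr 1
  omega

/-- The twelve-fold ring. -/
def gr : SimpleGraph (Fin 60) where
  Adj u v := d0 u v < 12
  symm := ⟨fun u v h => (t_symm u u.2 v v.2 h).1⟩
  loopless := ⟨fun u h => (t_symm u u.2 u u.2 h).2 rfl⟩

instance : DecidableRel gr.Adj := fun u v => inferInstanceAs (Decidable (d0 u v < 12))

noncomputable def pt (v : Fin 60) : ℂ := ev (co v)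

theorem pt_sub {u v : Fin 60} (h : gr.Adj u v) : pt v - pt u = ze ^ dr u v := by
  rw [pt, pt, ← ev_sub, (t_dr u u.2 v v.2).resolve_left (not_le.2 h), ev_iter]
  simp [ev]

theorem xa_near (v : Fin 60) {k : ℕ} (hk : k < 12) :
    (xa k v : ℝ) - 1 ≤ 2000 * (ze ^ k * pt v).re + 10000 ∧
      2000 * (ze ^ k * pt v).re + 10000 ≤ xa k v + 1 := by
  have h0 : (v + 5 * k) % 60 < 60 := Nat.mod_lt _ (by norm_num)
  obtain ⟨h1, h2, h3⟩ := t_xa _ h0
  have h4 : xa 0 ((v + 5 * k) % 60) = xa k v := by simp [xa]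
  rw [pt, ← ev_iter, t_rot v v.2 k hk, ← h4]
  have h5 := ev_re (co ((v + 5 * k) % 60))
  generalize co ((v + 5 * k) % 60) = t at *
  have h6 : ((xa 0 ((v + 5 * k) % 60) : ℤ) : ℝ) =
      2000 * t.1 + 1732 * t.2.1 + 1000 * t.2.2.1 + 10000 := by
    rw [h1]
    push_cast
    ring
  have h7 : (-2 : ℝ) ≤ t.2.1 := by exact_mod_cast h2
  have h8 : (t.2.1 : ℝ) ≤ 2 := by exact_mod_cast h3
  have h9 : 1.732 < √3 := Real.lt_sqrt_of_sq_lt (by norm_num)
  have h10 : √3 < 1.7325 := (Real.sqrt_lt' (by norm_num)).2 (by norm_num)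
  rw [Int.cast_natCast] at h6
  constructor <;> nlinarith

theorem sep {u v x y : Fin 60} (h : sepB u v x y = true) {z : ℂ}
    (h1 : z ∈ segment ℝ (pt u) (pt v)) (h2 : z ∈ segment ℝ (pt x) (pt y)) : False := by
  obtain ⟨k, hk, h⟩ := List.any_eq_true.1 h
  rw [List.mem_range] at hk
  rw [Nat.blt_eq] at h
  obtain ⟨a, b, ha, hb, hab, rfl⟩ := h1
  obtain ⟨c, d, hc, hd, hcd, e⟩ := h2
  have e1 := congrArg (fun w => (ze ^ k * w).re) e
  simp only [mul_add, mul_smul_comm, Complex.add_re, Complex.smul_re, smul_eq_mul] at e1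
  obtain ⟨m, m1, m2, m3, m4⟩ : ∃ m : ℕ, xa k u ≤ m ∧ xa k v ≤ m ∧ m + 3 ≤ xa k x ∧
      m + 3 ≤ xa k y := ⟨max (xa k u) (xa k v), by omega⟩
  have n1 : (xa k u : ℝ) ≤ m := by exact_mod_cast m1
  have n2 : (xa k v : ℝ) ≤ m := by exact_mod_cast m2
  have n3 : (m : ℝ) + 3 ≤ xa k x := by exact_mod_cast m3
  have n4 : (m : ℝ) + 3 ≤ xa k y := by exact_mod_cast m4
  have p1 := mul_le_mul_of_nonneg_left ((xa_near u hk).2.trans (add_le_add_left n1 1)) ha
  have p2 := mul_le_mul_of_nonneg_left ((xa_near v hk).2.trans (add_le_add_left n2 1)) hb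
  have p3 := mul_le_mul_of_nonneg_left ((sub_le_sub_right n3 1).trans (xa_near x hk).1) hc
  have p4 := mul_le_mul_of_nonneg_left ((sub_le_sub_right n4 1).trans (xa_near y hk).1) hd
  obtain rfl : b = 1 - a := by linarith
  obtain rfl : d = 1 - c := by linarith
  linarith

theorem pt_inj : Function.Injective pt := fun u v h => by
  rcases t_inj u u.2 v v.2 with a | a
  · exact Fin.ext a
  · exact (sep a (left_mem_segment ℝ _ _) (h ▸ left_mem_segment ℝ _ _)).elim

theorem pt_unit {u v : Fin 60} (h : gr.Adj u v) : ‖pt v - pt u‖ = 1 := by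
  rw [pt_sub h, norm_ze]

theorem fan {w a b z : ℂ} (ha : ‖a - w‖ = 1) (hb : ‖b - w‖ = 1) (hab : a ≠ b)
    (h1 : z ∈ segment ℝ w a) (h2 : z ∈ segment ℝ w b) : z = w := by
  rw [segment_eq_image'] at h1 h2
  obtain ⟨s, hs, rfl⟩ := h1
  obtain ⟨t, ht, e⟩ := h2
  have e1 : t • (b - w) = s • (a - w) := add_left_cancel e
  have e2 := congrArg norm e1
  rw [norm_smul, norm_smul, ha, hb, Real.norm_of_nonneg hs.1, Real.norm_of_nonneg ht.1,
    mul_one, mul_one] at e2
  by_cases s0 : s = 0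
  · simp [s0]
  · rw [e2] at e1
    exact absurd (sub_left_injective (smul_right_injective _ s0 e1)).symm hab

theorem pt_cross (u v x y : Fin 60) (h1 : gr.Adj u v) (h2 : gr.Adj x y) (hne : s(u, v) ≠ s(x, y))
    (z : ℂ) (z1 : z ∈ segment ℝ (pt u) (pt v)) (z2 : z ∈ segment ℝ (pt x) (pt y)) :
    ∃ w, (w = u ∨ w = v) ∧ (w = x ∨ w = y) ∧ z = pt w := by
  obtain ⟨i, hi, e1⟩ := t_nb u u.2 v v.2 h1
  obtain ⟨j, hj, e2⟩ := t_nb x x.2 y y.2 h2
  have h := t_sep
  simp only [List.all_eq_true, List.mem_range] at h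
  have h3 := h u u.2 i hi x x.2 j hj
  simp only [e1, e2, Bool.or_eq_true, Nat.beq_eq, Fin.val_inj] at h3
  rcases h3 with (((rfl | rfl) | rfl) | rfl) | h3
  · exact ⟨u, Or.inl rfl, Or.inl rfl, fan (pt_unit h1) (pt_unit h2)
      (fun a => hne (by rw [pt_inj a])) z1 z2⟩
  · exact ⟨u, Or.inl rfl, Or.inr rfl, fan (pt_unit h1) (pt_unit h2.symm)
      (fun a => hne (by rw [pt_inj a, Sym2.eq_swap])) z1 (by rwa [segment_symm])⟩
  · exact ⟨v, Or.inr rfl, Or.inl rfl, fan (pt_unit h1.symm) (pt_unit h2)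
      (fun a => hne (by rw [pt_inj a, Sym2.eq_swap])) (by rwa [segment_symm]) z2⟩
  · exact ⟨v, Or.inr rfl, Or.inr rfl, fan (pt_unit h1.symm) (pt_unit h2.symm)
      (fun a => hne (by rw [pt_inj a])) (by rwa [segment_symm]) (by rwa [segment_symm])⟩
  · exact (sep h3 z1 z2).elim

theorem gr_reg : gr.IsRegularOfDegree 4 := fun v => by
  rw [← t_deg v, ← SimpleGraph.card_neighborFinset_eq_degree, SimpleGraph.neighborFinset_eq_filter]
  rfl

theorem gr_match : IsMatchstick gr pt where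
  inj := pt_inj
  unit u v h := by rw [dist_comm, dist_eq_norm, pt_unit h]
  cross := pt_cross
  noVertex u v w h hw := by
    have huv : pt u ≠ pt v := fun a => h.ne (pt_inj a)
    have hu : w ≠ u := fun a => huv ((left_mem_openSegment_iff (𝕜 := ℝ)).1 (a ▸ hw))
    have hv : w ≠ v := fun a => huv ((right_mem_openSegment_iff (𝕜 := ℝ)).1 (a ▸ hw))
    obtain ⟨y, hy⟩ := (gr.degree_pos_iff_exists_adj w).1 (by rw [gr_reg w]; norm_num)
    obtain ⟨x, a, -, c⟩ := pt_cross u v w y h hy (by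
      rw [Ne, Sym2.eq_iff]
      rintro (a | a)
      exacts [hu a.1.symm, hv a.2.symm]) (pt w) (openSegment_subset_segment ℝ _ _ hw)
      (left_mem_segment ℝ _ _)
    rw [← pt_inj c] at a
    exact a.elim hu hv

theorem gr_conn : gr.Connected := by
  have : ∀ n, ∀ v : Fin 60, v.1 = n → gr.Reachable 0 v := fun n => by
    induction n using Nat.strong_induction_on with
    | _ n ih =>
      rintro v rfl
      rcases t_conn v v.2 with a | ⟨u, a, c⟩
      · rw [show v = 0 from Fin.ext a]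
      · exact (ih u a ⟨u, a.trans v.2⟩ rfl).trans (SimpleGraph.Adj.reachable c)
  exact ⟨fun u v => (this _ u rfl).symm.trans (this _ v rfl)⟩

/-- The pair of labels of a dart. -/
def lab (d : gr.Dart) : ℕ × ℕ := (d.fst, d.snd)

theorem lab_inj : Function.Injective lab := fun d e h =>
  SimpleGraph.Dart.ext _ _ (Prod.ext (Fin.ext (congrArg Prod.fst h)) (Fin.ext (congrArg Prod.snd h)))

/-- The next dart. -/
def nd (d : gr.Dart) : gr.Dart :=
  ⟨(d.snd, ⟨nx d.fst d.snd, Nat.mod_lt _ (by norm_num)⟩),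
    (t_nx _ d.fst.2 _ d.snd.2).resolve_left (not_le.2 d.adj)⟩

theorem next_iff (d e : gr.Dart) : FaceNext gr pt d e ↔ e = nd d := by
  have hp := Real.pi_pos
  have lt : ∀ u v, dr u v < 12 := fun u v => Nat.mod_lt _ (by norm_num)
  have key : ∀ y, gr.Adj d.snd y → y ≠ (nd d).snd →
      ccw (pt (nd d).snd - pt d.snd) (pt d.fst - pt d.snd) <
        ccw (pt y - pt d.snd) (pt d.fst - pt d.snd) := fun y hy hne => by
    have h1 := (t_nx' _ d.fst.2 _ d.snd.2).resolve_left (not_le.2 d.adj) y y.2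
    simp only [nxB, Bool.or_eq_true, Nat.ble_eq, Nat.beq_eq, Nat.blt_eq] at h1
    have h2 := h1.resolve_left (not_or.2 ⟨not_le.2 hy, fun a => hne (Fin.ext a)⟩)
    rw [pt_sub hy, pt_sub d.adj.symm, pt_sub (u := d.snd) (nd d).adj, ccw_ze (lt _ _) (lt _ _),
      ccw_ze (lt _ _) (lt _ _)]
    exact mul_lt_mul_of_pos_right (Nat.cast_lt.2 (Nat.succ_lt_succ h2)) (by positivity)
  constructor
  · rintro ⟨h1, h2⟩
    refine SimpleGraph.Dart.ext _ _ (Prod.ext h1 ?_)
    by_contra hne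
    exact not_le.2 (key _ (h1 ▸ e.adj) hne) (h2 _ (nd d).adj)
  · rintro rfl
    refine ⟨rfl, fun y hy => ?_⟩
    by_cases c : y = (nd d).snd
    · rw [c]
    · exact (key y hy c).le

theorem walk_iter (o : gr.Dart) (i : ℕ) :
    nd^[i] o ∈ faceWalk gr pt o ∧ lab (nd^[i] o) = st^[i] (lab o) := by
  induction i with
  | zero => exact ⟨Relation.ReflTransGen.refl, rfl⟩
  | succ i ih =>
    rw [Function.iterate_succ_apply', Function.iterate_succ_apply', ← ih.2]
    exact ⟨ih.1.tail ((next_iff _ _).2 rfl), rfl⟩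

theorem gr_short : ∃ o b : gr.Dart, ∀ d : gr.Dart, d ∉ faceWalk gr pt o → d ∉ faceWalk gr pt b →
    (faceWalk gr pt d).ncard ≤ 4 := by
  refine ⟨⟨(0, 56), by decide +kernel⟩, ⟨(4, 9), by decide +kernel⟩, fun d h1 h2 => ?_⟩
  have h := (t_face _ d.fst.2 _ d.snd.2).resolve_left (not_le.2 d.adj)
  simp only [faceB, Bool.or_eq_true, decide_eq_true_eq, List.any_eq_true] at h
  have sub : (nd (nd (nd d)) = d ∨ nd (nd (nd (nd d))) = d) →
      (faceWalk gr pt d).ncard ≤ 4 := fun a => by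
    refine le_trans (Set.ncard_le_ncard (t := {d, nd d, nd (nd d), nd (nd (nd d))})
      (fun e he => ?_) (Set.toFinite _)) ((Set.ncard_insert_le _ _).trans (Nat.succ_le_succ
      ((Set.ncard_insert_le _ _).trans (Nat.succ_le_succ ((Set.ncard_insert_le _ _).trans
        (by rw [Set.ncard_singleton]))))))
    induction he with
    | refl => exact Or.inl rfl
    | tail _ s ih =>
      rw [(next_iff _ _).1 s]
      rcases ih with rfl | rfl | rfl | rfl
      exacts [Or.inr (Or.inl rfl), Or.inr (Or.inr (Or.inl rfl)), Or.inr (Or.inr (Or.inr rfl)),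
        a.elim (fun c => Or.inr (Or.inl (congrArg nd c))) Or.inl]
  have hit : ∀ o i, st^[i] (lab o) = lab d → d ∈ faceWalk gr pt o := fun o i a =>
    lab_inj ((walk_iter o i).2.trans a) ▸ (walk_iter o i).1
  rcases h with ((h | h) | ⟨i, -, h⟩) | ⟨i, -, h⟩
  · exact sub (Or.inl (lab_inj h))
  · exact sub (Or.inr (lab_inj h))
  · exact (h1 (hit _ i h)).elim
  · exact (h2 (hit _ i h)).elim

end Pool.Agent.Mst.Ring
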