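import Pool.Agent.P.MP_e0c7cd_co.TFinal

namespace Pool.Agent.Mst

open Complex Real

variable {V : Type} {G : SimpleGraph V} {p : V → ℂ}

theorem const_le_reps [Fintype V] (S : Set G.Dart) (T : Set V)
    (h : ∀ f ∈ constSub G S, (∀ v ∈ T, f v = 0) → ∀ v, f v = 0) :
    Module.finrank ℝ (constSub G S) ≤ T.ncard := by
  classical
  have : Fintype T := Fintype.ofFinite _
  let L : constSub G S →ₗ[ℝ] (T → ℝ) :=
    { toFun := fun f v => f.1 v
      map_add' := fun _ _ => rfl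
      map_smul' := fun _ _ => rfl }
  have hL : Function.Injective L := by
    rw [injective_iff_map_eq_zero]
    intro f hf
    exact Subtype.ext (funext (h f.1 f.2 fun v hv => congrFun hf ⟨v, hv⟩))
  have := LinearMap.finrank_le_finrank_of_injective hL
  rwa [Module.finrank_fintype_fun_eq_card, ← Nat.card_eq_fintype_card, Nat.card_coe_set_eq] at this

theorem const_comp {k : ℂ} {S : Set G.Dart} (hS : ∀ d, cls p d ≠ k → d ∈ S) {f : V → ℝ}
    (hf : f ∈ constSub G S) {u v : V} (h : comp G p k u = comp G p k v) : f u = f v :=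
  comp_const k f (fun d hd => hf d (hS d hd)) (Quotient.exact h)

theorem Rot.const_side [Fintype V] (R : Rot G p) {k : ℂ} {S : Set G.Dart} {x : G.Dart}
    (hS : ∀ d, cls p d ≠ k → d ∈ S) (hx : ∀ d, R.phi.SameCycle x d → d ∈ S) {f : V → ℝ}
    (hf : f ∈ constSub G S) {v : V} (hv : v ∈ R.side k x) : f v = f x.snd := by
  classical
  obtain ⟨d, hd, hq⟩ := hv
  rw [← const_comp hS hf hq]
  exact (TY_orbit R.phi (fun e => R.phi.SameCycle x e ∧ f e.snd = f x.snd)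
    (fun e he => ⟨(R.same_phi x e).2 he.1, by
      rw [← hf _ (hx _ ((R.same_phi x e).2 he.1)), R.phi_fst, he.2]⟩)
    ⟨Equiv.Perm.SameCycle.refl _ _, rfl⟩ hd).2

theorem Rot.side_rep [Fintype V] (R : Rot G p) {k : ℂ} {x : G.Dart} (h : 1 ≤ R.flk k x) {v : V}
    (hv : v ∈ R.side k x) :
    ∃ e, (R.phi.SameCycle x e ∧ cls p e = k) ∧ comp G p k e.snd = comp G p k v := by
  classical
  obtain ⟨d, hd, hq⟩ := hv
  obtain ⟨a, ha, hk⟩ := TSimple_ex R h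
  rw [← hq]
  refine (TY_orbit R.phi (fun e => R.phi.SameCycle x e ∧
    ∃ a, (R.phi.SameCycle x a ∧ cls p a = k) ∧ comp G p k a.snd = comp G p k e.snd)
    (fun e he => ⟨(R.same_phi x e).2 he.1, ?_⟩) ⟨ha, a, ⟨ha, hk⟩, rfl⟩ (ha.symm.trans hd)).2
  by_cases c : cls p (R.phi e) = k
  · exact ⟨_, ⟨(R.same_phi x e).2 he.1, c⟩, rfl⟩
  · obtain ⟨a, h1, h2⟩ := he.2
    refine ⟨a, h1, h2.trans ?_⟩
    rw [← R.phi_fst]
    exact comp_dart k _ c

theorem side_of_comp {R : Rot G p} {k : ℂ} {x : G.Dart} {u v : V}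
    (h : comp G p k u = comp G p k v) : u ∈ R.side k x ↔ v ∈ R.side k x := by
  simp only [Rot.side, Set.mem_ofPred_eq, h]

theorem sum_avg3 {D : Type} [Fintype D] (f : Equiv.Perm D) (F H : D → ℕ)
    (h : ∀ d, F d + F (f d) + F (f (f d)) ≤ H d + H (f d) + H (f (f d))) :
    ∑ d, F d ≤ ∑ d, H d := by
  have h1 := Finset.sum_le_sum (s := Finset.univ) fun d _ => h d
  simp only [Finset.sum_add_distrib] at h1
  rw [Equiv.sum_comp f F, Equiv.sum_comp f H, Equiv.sum_comp f fun d => F (f d),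
    Equiv.sum_comp f fun d => H (f d), Equiv.sum_comp f F, Equiv.sum_comp f H] at h1
  omega

theorem sum_avg4 {D : Type} [Fintype D] (f : Equiv.Perm D) (F H : D → ℕ)
    (h : ∀ d, F d + F (f d) + F (f (f d)) + F (f (f (f d))) ≤
      H d + H (f d) + H (f (f d)) + H (f (f (f d)))) :
    ∑ d, F d ≤ ∑ d, H d := by
  have h1 := Finset.sum_le_sum (s := Finset.univ) fun d _ => h d
  simp only [Finset.sum_add_distrib] at h1
  rw [Equiv.sum_comp f fun d => F (f (f d)), Equiv.sum_comp f fun d => H (f (f d)),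
    Equiv.sum_comp f fun d => F (f d), Equiv.sum_comp f fun d => H (f d),
    Equiv.sum_comp f F, Equiv.sum_comp f H] at h1
  omega

theorem Rot.Tri.phi_iff {R : Rot G p} {d : G.Dart} : R.Tri (R.phi d) ↔ R.Tri d :=
  ⟨Rot.Tri.of_phi, Rot.Tri.phi⟩

theorem Rot.Rho.phi_iff {R : Rot G p} {d : G.Dart} : R.Rho (R.phi d) ↔ R.Rho d :=
  ⟨Rot.Rho.of_phi, Rot.Rho.phi⟩

/-- Darts of rhombi all of whose sides have class `k`. -/
def Rot.Lat (R : Rot G p) (o b : G.Dart) (k : ℂ) (d : G.Dart) : Prop :=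
  R.Sh o b d ∧ R.Rho d ∧ cls p d = k ∧ cls p (R.phi d) = k

theorem Rot.lat_phi (R : Rot G p) (o b : G.Dart) (k : ℂ) (d : G.Dart) :
    R.Lat o b k (R.phi d) ↔ R.Lat o b k d := by
  simp only [Rot.Lat, R.sh_phi, Rot.Rho.phi_iff]
  refine and_congr_right fun _ => and_congr_right fun h => ?_
  rw [h.cls_phi_phi, and_comm]

theorem Rot.Two.master [Fintype V] {R : Rot G p} {o b : G.Dart} (h : R.Two o b) {k : ℂ}
    (X : Set G.Dart) (hk : ∀ d ∈ X, cls p d = k) (hs : ∀ d ∈ X, d.symm ∈ X) (hne : X.Nonempty)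
    (hmix : ∀ d ∈ X, R.Rho d → cls p (R.phi d) ≠ k → R.phi (R.phi d) ∈ X)
    (hO : ∀ d ∈ X, ¬ R.phi.SameCycle o d) (ε : ℕ)
    (hε : ε = 0 ∨ (ε = 1 ∧ ∀ d ∈ X, ¬ R.phi.SameCycle b d)) :
    6 * {d | R.phi.SameCycle b d ∧ d ∈ X}.ncard +
      6 * {d | (R.Sh o b d ∧ R.Tri d) ∧ d ∈ X}.ncard + 6 * {d | R.Lat o b k d ∧ d ∈ X}.ncard +
        12 + 12 * ε ≤
      4 * {d | (R.Sh o b d ∧ R.Tri d) ∧ (d ∈ X ∨ R.phi d ∈ X ∨ R.phi (R.phi d) ∈ X)}.ncard +
      3 * {d | R.Lat o b k d ∧ (d ∈ X ∨ R.phi d ∈ X ∨ R.phi (R.phi d) ∈ X ∨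
        R.phi (R.phi (R.phi d)) ∈ X)}.ncard + 12 * Module.finrank ℝ (constSub G Xᶜ) := by
  classical
  have hm := h.hm
  set A : Set G.Dart := {d | (R.Sh o b d ∧ R.Tri d) ∧
    ¬ (d ∈ X ∨ R.phi d ∈ X ∨ R.phi (R.phi d) ∈ X)} with hA
  set B : Set G.Dart := {d | (R.Sh o b d ∧ R.Rho d) ∧
    ¬ (d ∈ X ∨ R.phi d ∈ X ∨ R.phi (R.phi d) ∈ X ∨ R.phi (R.phi (R.phi d)) ∈ X)} with hB
  have hA1 : ∀ d, R.phi d ∈ A ↔ d ∈ A := by
    intro d
    simp only [hA, Set.mem_ofPred_eq, R.sh_phi, Rot.Tri.phi_iff]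
    refine and_congr_right fun a => ?_
    rw [a.2.1, ← or_rotate]
  have hB1 : ∀ d, R.phi d ∈ B ↔ d ∈ B := by
    intro d
    simp only [hB, Set.mem_ofPred_eq, R.sh_phi, Rot.Rho.phi_iff]
    refine and_congr_right fun a => ?_
    rw [a.2.1]
    tauto
  have h1 := finrank_invSub R.phi A B
    (fun d hd => ⟨(hA1 d).2 hd, hd.1.2.1, R.phi_ne d⟩)
    (fun d hd => ⟨(hB1 d).2 hd, hd.1.2.1, hd.1.2.phi_phi_ne hm⟩)
    (by rw [Set.disjoint_left]; intro d h1 h2; exact h1.1.2.not_rho h2.1.2)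
  have i1 : ∀ d, R.phi d ∈ A ∪ B ↔ d ∈ A ∪ B := fun d => by
    rw [Set.mem_union, Set.mem_union, hA1, hB1]
  have h2 := finrank_invSub_orbit R.phi (A ∪ B) i1 o
    (by rintro (hd | hd) <;> exact hd.1.1.1 (Equiv.Perm.SameCycle.refl _ _))
  have s1 : (A ∪ B) ∪ {d | R.phi.SameCycle o d} ⊆ Xᶜ := by
    rintro d ((hd | hd) | hd) hx
    exacts [hd.2 (Or.inl hx), hd.2 (Or.inl hx), hO d hx hd]
  have s2 : ∀ d : G.Dart, d.symm ∈ Xᶜ → d ∈ Xᶜ := fun d hd hx => hd (hs d hx)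
  obtain ⟨x, hx⟩ := hne
  have h3 : Module.finrank ℝ (invSub R.phi ((A ∪ B) ∪ {d | R.phi.SameCycle o d})) + ε ≤
      Module.finrank ℝ (cycSub G Xᶜ) := by
    rcases hε with rfl | ⟨rfl, hb⟩
    · exact R.inv_le_cyc hm h.hc x _ _ s1 s2 fun e => s1 e hx
    · rw [← finrank_invSub_orbit R.phi _ (fun d => by
        exact or_congr (i1 d) (R.same_phi o d)) b (by
        rintro ((hd | hd) | hd)
        exacts [hd.1.1.2 (Equiv.Perm.SameCycle.refl _ _), hd.1.1.2 (Equiv.Perm.SameCycle.refl _ _),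
          h.ne hd])]
      have s3 : ((A ∪ B) ∪ {d | R.phi.SameCycle o d}) ∪ {d | R.phi.SameCycle b d} ⊆ Xᶜ :=
        Set.union_subset s1 fun d hd hx => hb d hx hd
      exact R.inv_le_cyc hm h.hc x _ _ s3 s2 fun e => s3 e hx
  have h4 := finrank_cyc (G := G) Xᶜ (fun d hd hx => hd (by simpa using hs _ hx))
  have h5 : X.ncard + Xᶜ.ncard = 4 * Fintype.card V := by
    rw [Set.ncard_add_ncard_compl, ← Set.ncard_univ, h.hreg.ncard_univ]
  have h6 := h.total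
  have h7 := h.tri_eq.1
  have h8 := h.split3 (fun d => d ∈ X)
  have h9 : {d | R.phi.SameCycle o d ∧ d ∈ X}.ncard = 0 := by
    rw [Set.ncard_eq_zero (Set.toFinite _), Set.eq_empty_iff_forall_notMem]
    exact fun d hd => hO d hd.2 hd.1
  have h10 : R.triA o b = _ := nc_split (fun d => R.Sh o b d ∧ R.Tri d)
    (fun d => d ∈ X ∨ R.phi d ∈ X ∨ R.phi (R.phi d) ∈ X)
  have h11 : {d | R.Sh o b d ∧ R.Rho d}.ncard + 2 * {d | R.Lat o b k d ∧ d ∈ X}.ncard ≤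
      B.ncard + {d | R.Lat o b k d ∧ (d ∈ X ∨ R.phi d ∈ X ∨ R.phi (R.phi d) ∈ X ∨
        R.phi (R.phi (R.phi d)) ∈ X)}.ncard + 2 * {d | (R.Sh o b d ∧ R.Rho d) ∧ d ∈ X}.ncard := by
    simp only [hB, TFull_nc, Finset.mul_sum, ← Finset.sum_add_distrib]
    refine sum_avg4 R.phi _ _ fun d => ?_
    simp only [R.sh_phi, Rot.Rho.phi_iff, R.lat_phi]
    by_cases c : R.Sh o b d ∧ R.Rho d
    swap
    · have : ¬ R.Lat o b k d := fun a => c ⟨a.1, a.2.1⟩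
      simp [c, this]
    have r := c.2
    simp only [r.1]
    by_cases l : R.Lat o b k d
    · by_cases x0 : d ∈ X <;> by_cases x1 : R.phi d ∈ X <;> by_cases x2 : R.phi (R.phi d) ∈ X <;>
        by_cases x3 : R.phi (R.phi (R.phi d)) ∈ X <;> simp [c, l, x0, x1, x2, x3]
    · have c2 := r.cls_phi_phi
      have c3 := r.phi.cls_phi_phi
      have m0 : d ∈ X → R.phi (R.phi d) ∈ X := fun a =>
        hmix d a r fun e => l ⟨c.1, r, hk d a, e⟩
      have m1 : R.phi d ∈ X → R.phi (R.phi (R.phi d)) ∈ X := fun a =>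
        hmix _ a r.phi fun e => l ⟨c.1, r, c2 ▸ e, hk _ a⟩
      have m2 : R.phi (R.phi d) ∈ X → d ∈ X := fun a => r.1 ▸
        hmix _ a r.phi.phi fun e => l ⟨c.1, r, c2 ▸ hk _ a, c3 ▸ e⟩
      have m3 : R.phi (R.phi (R.phi d)) ∈ X → R.phi d ∈ X := fun a => by
        have := hmix _ a r.phi.phi.phi fun e => l ⟨c.1, r, r.1 ▸ e, c3 ▸ hk _ a⟩
        rwa [r.1] at this
      by_cases x0 : d ∈ X <;> by_cases x1 : R.phi d ∈ X <;> by_cases x2 : R.phi (R.phi d) ∈ X <;>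
        by_cases x3 : R.phi (R.phi (R.phi d)) ∈ X <;> simp_all
  have h12 : X.ncard = {d | d ∈ X}.ncard := rfl
  have h13 : A.ncard = {d | (R.Sh o b d ∧ R.Tri d) ∧
    ¬ (d ∈ X ∨ R.phi d ∈ X ∨ R.phi (R.phi d) ∈ X)}.ncard := rfl
  omega

theorem Rot.Two.comps_le [Fintype V] {R : Rot G p} {o b : G.Dart} (h : R.Two o b) (k : ℂ)
    (H : Set V) (hH : ∀ u v, comp G p k u = comp G p k v → u ∈ H → v ∈ H)
    (ho : ∀ v ∈ H, v ∉ R.side k o) (hb : ∀ v ∈ H, v ∉ R.side k b) :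
    2 * (comp G p k '' H).ncard ≤ {d : G.Dart | d.snd ∈ H ∧ R.Obt k d}.ncard := by
  classical
  have : Fintype (Quotient (compSetoid G p k)) := Fintype.ofFinite _
  rw [Set.ncard_eq_toFinset_card' {d : G.Dart | d.snd ∈ H ∧ R.Obt k d},
    Finset.card_eq_sum_card_fiberwise (f := fun d : G.Dart => comp G p k d.snd)
      (t := (comp G p k '' H).toFinset) (fun d hd => by
        simp only [Set.coe_toFinset] at hd ⊢
        exact ⟨_, hd.1, rfl⟩), Set.ncard_eq_toFinset_card', mul_comm, ← smul_eq_mul]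
  refine Finset.card_nsmul_le_sum _ _ _ fun q hq => ?_
  obtain ⟨v, hv, rfl⟩ := Set.mem_toFinset.1 hq
  refine le_trans (TComp_other h k _ fun a => a.elim (ho v hv) (hb v hv)) ?_
  rw [← Set.ncard_coe_finset]
  refine Set.ncard_le_ncard (fun d hd => ?_) (Set.toFinite _)
  simp only [Finset.coe_filter, Set.mem_toFinset, Set.mem_ofPred_eq]
  exact ⟨⟨hH _ _ hd.1.symm hv, hd.2⟩, hd.1⟩

end Pool.Agent.Mst
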