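import Pool.Agent.P.MP_e0c7cd_co.x.XM

namespace Pool.Agent.Mst

open Complex Real

variable {V : Type} {G : SimpleGraph V} {p : V → ℂ} {R : Rot G p} {o b : G.Dart} {k : ℂ}

theorem comp_phi (R : Rot G p) {d : G.Dart} (h : cls p (R.phi d) ≠ k) :
    comp G p k (R.phi d).snd = comp G p k d.snd := by
  rw [← R.phi_fst d]
  exact (comp_dart k _ h).symm

theorem Rot.Rho.comp_opp {d : G.Dart} (r : R.Rho d) (h : cls p (R.phi d) ≠ k) :
    comp G p k (R.phi (R.phi d)).fst = comp G p k d.snd ∧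
      comp G p k (R.phi (R.phi d)).snd = comp G p k d.fst := by
  refine ⟨by rw [R.phi_fst, comp_phi R h], ?_⟩
  rw [← r.phi_phi_phi_snd]
  exact (comp_phi R (by rw [r.phi.cls_phi_phi]; exact h)).symm

theorem Rot.Lat.obt_or_acu (hm : IsMatchstick G p) {d : G.Dart} (l : R.Lat o b k d) :
    R.Obt k d ∨ R.Acu k d := l.2.1.obt_or_acu hm l.2.2.1 l.2.2.2

theorem Rot.Lat.obt_phi {d : G.Dart} (l : R.Lat o b k d) : R.Obt k (R.phi d) ↔ R.Acu k d := by
  have l' := (R.lat_phi o b k d).2 l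
  have := l.2.1.2.2.2.1
  exact ⟨fun a => ⟨l.2.1, l.2.2.1, l.2.2.2, by linarith [a.2.2.2]⟩,
    fun a => ⟨l'.2.1, l'.2.2.1, l'.2.2.2, by linarith [a.2.2.2]⟩⟩

theorem Rot.Lat.acu_phi {d : G.Dart} (l : R.Lat o b k d) : R.Acu k (R.phi d) ↔ R.Obt k d := by
  have l' := (R.lat_phi o b k d).2 l
  have := l.2.1.2.2.2.1
  exact ⟨fun a => ⟨l.2.1, l.2.2.1, l.2.2.2, by linarith [a.2.2.2]⟩,
    fun a => ⟨l'.2.1, l'.2.2.1, l'.2.2.2, by linarith [a.2.2.2]⟩⟩

theorem Rot.Obt.not_acu {d : G.Dart} (h : R.Obt k d) : ¬ R.Acu k d := fun a => by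
  linarith [h.2.2.2, a.2.2.2, Real.pi_pos]

/-- The two patterns of a lattice rhombus. -/
theorem Rot.Lat.cases (hm : IsMatchstick G p) {d : G.Dart} (l : R.Lat o b k d) :
    (R.Obt k d ∧ R.Acu k (R.phi d) ∧ R.Obt k (R.phi (R.phi d)) ∧
      R.Acu k (R.phi (R.phi (R.phi d)))) ∨
    (R.Acu k d ∧ R.Obt k (R.phi d) ∧ R.Acu k (R.phi (R.phi d)) ∧
      R.Obt k (R.phi (R.phi (R.phi d)))) := by
  have l1 := (R.lat_phi o b k d).2 l
  have l2 := (R.lat_phi o b k _).2 l1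
  rcases l.obt_or_acu hm with a | a
  · exact Or.inl ⟨a, l.acu_phi.2 a, l1.obt_phi.2 (l.acu_phi.2 a),
      l2.acu_phi.2 (l1.obt_phi.2 (l.acu_phi.2 a))⟩
  · exact Or.inr ⟨a, l.obt_phi.2 a, l1.acu_phi.2 (l.obt_phi.2 a),
      l2.obt_phi.2 (l1.acu_phi.2 (l.obt_phi.2 a))⟩

theorem lat_card [Fintype V] (h : R.Two o b) (k : ℂ) :
    2 * {d | R.Sh o b d ∧ R.Obt k d}.ncard ≤ {d | R.Lat o b k d}.ncard := by
  classical
  simp only [TFull_nc, Finset.mul_sum]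
  refine sum_avg4 R.phi _ _ fun d => ?_
  simp only [R.sh_phi, R.lat_phi]
  by_cases l : R.Lat o b k d
  · rcases l.cases h.hm with ⟨a, b, c, e⟩ | ⟨a, b, c, e⟩
    · simp [l, l.1, a, c, mt Rot.Obt.not_acu (not_not.2 b), mt Rot.Obt.not_acu (not_not.2 e)]
    · simp [l, l.1, b, e, mt Rot.Obt.not_acu (not_not.2 a), mt Rot.Obt.not_acu (not_not.2 c)]
  · have n : ∀ e, (R.Lat o b k e ↔ R.Lat o b k d) → (R.Sh o b e ↔ R.Sh o b d) →
        ¬ (R.Sh o b d ∧ R.Obt k e) := fun e a c x =>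
      l (a.1 ⟨c.2 x.1, x.2.1, x.2.2.1, x.2.2.2.1⟩)
    simp [l, n d Iff.rfl Iff.rfl, n (R.phi d) (by simp [R.lat_phi]) (by simp [R.sh_phi]),
      n (R.phi (R.phi d)) (by simp [R.lat_phi]) (by simp [R.sh_phi]),
      n (R.phi (R.phi (R.phi d))) (by simp [R.lat_phi]) (by simp [R.sh_phi])]

theorem Rot.Two.no_ob [Fintype V] (h : R.Two o b) (hF : R.Facts o b k) {x : G.Dart}
    (hx : R.Lat o b k x) {e : G.Dart} (he1 : e.fst ∈ R.side k o) (he2 : e.snd ∈ R.side k b) :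
    False := by
  classical
  set Q : Set V := {v | v ∉ R.side k o ∧ v ∉ R.side k b} with hQ
  have cQ : ∀ u v, comp G p k u = comp G p k v → u ∈ Q → v ∈ Q := fun u v a c =>
    ⟨fun z => c.1 ((side_of_comp a).2 z), fun z => c.2 ((side_of_comp a).2 z)⟩
  set X : Set G.Dart := {d | cls p d = k ∧ (d.fst ∈ Q ∨ d.snd ∈ Q)} with hX
  have lX : ∀ d, R.Lat o b k d → d ∈ X := fun d l => by
    refine ⟨l.2.2.1, ?_⟩
    rcases l.cases h.hm with a | a
    · exact Or.inr (hF.noObt d l.1 a.1)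
    · rw [← l.2.1.phi_phi_phi_snd]
      exact Or.inl (hF.noObt _ (by simp only [R.sh_phi]; exact l.1) a.2.2.2)
  have nO : ∀ d ∈ X, ¬ R.phi.SameCycle o d := fun d hd a =>
    hd.2.elim (fun c => c.1 (R.fst_mem_side k a)) fun c => c.1 (R.snd_mem_side k a)
  have nB : ∀ d ∈ X, ¬ R.phi.SameCycle b d := fun d hd a =>
    hd.2.elim (fun c => c.2 (R.fst_mem_side k a)) fun c => c.2 (R.snd_mem_side k a)
  have h1 := h.master X (fun d hd => hd.1) (fun d hd => ⟨(cls_symm d).trans hd.1, hd.2.symm⟩)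
    ⟨x, lX x hx⟩ (fun d hd r c => ⟨r.cls_phi_phi.trans hd.1,
      hd.2.symm.imp (cQ _ _ (r.comp_opp c).1.symm) (cQ _ _ (r.comp_opp c).2.symm)⟩)
    nO 1 (Or.inr ⟨rfl, nB⟩)
  have h2 : 4 * {d | (R.Sh o b d ∧ R.Tri d) ∧
      (d ∈ X ∨ R.phi d ∈ X ∨ R.phi (R.phi d) ∈ X)}.ncard ≤
      6 * {d | (R.Sh o b d ∧ R.Tri d) ∧ d ∈ X}.ncard := by
    simp only [TFull_nc, Finset.mul_sum]
    refine sum_avg3 R.phi _ _ fun d => ?_
    simp only [R.sh_phi, Rot.Tri.phi_iff]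
    by_cases c : R.Sh o b d ∧ R.Tri d
    swap
    · simp [c]
    have t := c.2
    simp only [t.1, hX, Set.mem_ofPred_eq, t.cls_phi h.hm, t.phi.cls_phi h.hm, R.phi_fst,
      t.phi_phi_snd]
    by_cases c0 : cls p d = k <;> by_cases c1 : d.fst ∈ Q <;> by_cases c2 : d.snd ∈ Q <;>
      by_cases c3 : (R.phi d).snd ∈ Q <;> simp [c, c0, c1, c2, c3]
  have h3 : {d | R.Lat o b k d ∧ d ∈ X}.ncard = {d | R.Lat o b k d}.ncard :=
    nc_congr fun d => ⟨fun a => a.1, fun a => ⟨a, lX d a⟩⟩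
  have h4 : {d | R.Lat o b k d ∧ (d ∈ X ∨ R.phi d ∈ X ∨ R.phi (R.phi d) ∈ X ∨
        R.phi (R.phi (R.phi d)) ∈ X)}.ncard = {d | R.Lat o b k d}.ncard :=
    nc_congr fun d => ⟨fun a => a.1, fun a => ⟨a, Or.inl (lX d a)⟩⟩
  have h5 := lat_card h k
  have h6 := h.comps_le k Q cQ (fun v a => a.1) fun v a => a.2
  have h7 : {d : G.Dart | d.snd ∈ Q ∧ R.Obt k d}.ncard ≤ {d | R.Sh o b d ∧ R.Obt k d}.ncard :=
    Set.ncard_le_ncard (fun d a => ⟨⟨fun c => a.1.1 (R.snd_mem_side k c),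
      fun c => a.1.2 (R.snd_mem_side k c)⟩, a.2⟩) (Set.toFinite _)
  have nk : ∀ d, cls p d ≠ k → d ∈ Xᶜ := fun d a c => a c.1
  have h8 := const_le_reps Xᶜ (insert o.snd (Quotient.out '' (comp G p k '' Q))) fun f hf h0 v => by
    have zo : ∀ v ∈ R.side k o, f v = 0 := fun v hv => by
      rw [R.const_side nk (fun d a c => nO d c a) hf hv]
      exact h0 _ (Set.mem_insert _ _)
    by_cases c1 : v ∈ R.side k o
    · exact zo v c1
    by_cases c2 : v ∈ R.side k b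
    · rw [R.const_side nk (fun d a c => nB d c a) hf c2,
        ← R.const_side nk (fun d a c => nB d c a) hf he2,
        ← hf e fun c => c.2.elim (fun z => z.1 he1) fun z => z.2 he2]
      exact zo _ he1
    · rw [← const_comp nk hf (u := (comp G p k v).out) (Quotient.out_eq _)]
      exact h0 _ (Set.mem_insert_of_mem _ ⟨_, ⟨v, ⟨c1, c2⟩, rfl⟩, rfl⟩)
  have h9 := Set.ncard_insert_le o.snd (Quotient.out '' (comp G p k '' Q))
  have h10 := Set.ncard_image_le (s := comp G p k '' Q) (f := Quotient.out) (Set.toFinite _)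
  omega

theorem Rot.Two.u_le [Fintype V] (h : R.Two o b) (hF : R.Facts o b k) {x : G.Dart}
    (hx : R.Lat o b k x) (hJ : 1 ≤ R.flk k b)
    (hr : 6 * R.flk k b ≤ 2 * R.aS b o k + 6 * R.uS b o k) : R.uS o b k ≤ 2 * R.yS o b k := by
  classical
  have nob : ∀ e : G.Dart, e.fst ∈ R.side k o → e.snd ∉ R.side k b := fun e a c =>
    h.no_ob hF hx a c
  have dj : ∀ v ∈ R.side k b, v ∉ R.side k o := fun v a c => Set.disjoint_left.1 hF.disj c a
  set O := R.side k o with hO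
  set Hx : Set V := {v | v ∉ O ∧ v ∉ R.side k b ∧
    ∃ e : G.Dart, e.fst ∈ O ∧ comp G p k e.snd = comp G p k v} with hHx
  set Hn : Set V := {v | v ∉ O ∧ v ∉ R.side k b ∧ v ∉ Hx} with hHn
  have cx : ∀ u v, comp G p k u = comp G p k v → u ∈ Hx → v ∈ Hx := fun u v a c =>
    ⟨fun z => c.1 ((side_of_comp a).2 z), fun z => c.2.1 ((side_of_comp a).2 z),
      c.2.2.imp fun e z => ⟨z.1, z.2.trans a⟩⟩
  have cn : ∀ u v, comp G p k u = comp G p k v → u ∈ Hn → v ∈ Hn := fun u v a c =>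
    ⟨fun z => c.1 ((side_of_comp a).2 z), fun z => c.2.1 ((side_of_comp a).2 z),
      fun z => c.2.2 (cx _ _ a.symm z)⟩
  set X : Set G.Dart := {d | cls p d = k ∧ d.fst ∉ O ∧ d.snd ∉ O} with hX
  have nO : ∀ d ∈ X, ¬ R.phi.SameCycle o d := fun d hd a => hd.2.2 (R.snd_mem_side k a)
  have bX : ∀ d, R.phi.SameCycle b d → cls p d = k → d ∈ X := fun d a c =>
    ⟨c, dj _ (R.fst_mem_side k a), dj _ (R.snd_mem_side k a)⟩
  obtain ⟨e0, he0, he0'⟩ := TSimple_ex R hJ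
  have h1 := h.master X (fun d hd => hd.1)
    (fun d hd => ⟨(cls_symm d).trans hd.1, hd.2.2, hd.2.1⟩) ⟨e0, bX _ he0 he0'⟩
    (fun d hd r c => ⟨r.cls_phi_phi.trans hd.1,
      fun z => hd.2.2 ((side_of_comp (r.comp_opp c).1).1 z),
      fun z => hd.2.1 ((side_of_comp (r.comp_opp c).2).1 z)⟩) nO 0 (Or.inl rfl)
  have h0 : {d | R.phi.SameCycle b d ∧ d ∈ X}.ncard = R.flk k b :=
    nc_congr fun d => ⟨fun a => ⟨a.1, a.2.1⟩, fun a => ⟨a.1, bX d a.1 a.2⟩⟩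
  set yT := {d | R.Sh o b d ∧ cls p d = k ∧ d.snd ∈ O ∧
    (R.Tri d ∧ d.fst ∉ O ∧ (R.phi d).snd ∉ O)}.ncard with hyT
  set aO := {d | R.Sh o b d ∧ d.snd ∈ O ∧ R.Acu k d}.ncard with haO
  have h2 : 4 * {d | (R.Sh o b d ∧ R.Tri d) ∧
      (d ∈ X ∨ R.phi d ∈ X ∨ R.phi (R.phi d) ∈ X)}.ncard + 2 * R.aS b o k + 6 * R.uS b o k ≤
      6 * {d | (R.Sh o b d ∧ R.Tri d) ∧ d ∈ X}.ncard + 6 * yT := by
    simp only [hyT, Rot.aS, Rot.uS, TFull_nc, Finset.mul_sum, ← Finset.sum_add_distrib]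
    refine sum_avg3 R.phi _ _ fun d => ?_
    simp only [R.sh_phi, Rot.Tri.phi_iff, R.sh_comm b o]
    by_cases s : R.Sh o b d
    swap
    · simp [s]
    by_cases t : R.Tri d
    swap
    · simp [t]
    have n1 := nob d
    have n2 := nob (R.phi d)
    have n3 := nob (R.phi (R.phi d))
    have n4 := nob d.symm
    have n5 := nob (R.phi d).symm
    have n6 := nob (R.phi (R.phi d)).symm
    have d1 := dj d.fst
    have d2 := dj d.snd
    have d3 := dj (R.phi d).snd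
    simp only [SimpleGraph.Dart.symm_toProd, Prod.fst_swap, Prod.snd_swap, R.phi_fst,
      t.phi_phi_snd] at n2 n3 n4 n5 n6
    simp only [t.1, hX, Set.mem_ofPred_eq, t.cls_phi h.hm, t.phi.cls_phi h.hm, R.phi_fst,
      t.phi_phi_snd]
    by_cases c0 : cls p d = k
    swap
    · simp [c0]
    simp only [c0, s, t, true_and]
    clear * - n1 n2 n3 n4 n5 n6 d1 d2 d3
    by_cases c1 : d.fst ∈ O <;> by_cases c2 : d.snd ∈ O <;> by_cases c3 : (R.phi d).snd ∈ O <;>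
      by_cases b1 : d.fst ∈ R.side k b <;> by_cases b2 : d.snd ∈ R.side k b <;>
      by_cases b3 : (R.phi d).snd ∈ R.side k b <;> simp_all
  have h3 : 3 * {d | R.Lat o b k d ∧ (d ∈ X ∨ R.phi d ∈ X ∨ R.phi (R.phi d) ∈ X ∨
        R.phi (R.phi (R.phi d)) ∈ X)}.ncard + 3 * {d | R.Lat o b k d}.ncard ≤
      6 * {d | R.Lat o b k d ∧ d ∈ X}.ncard + 12 * aO := by
    simp only [haO, TFull_nc, Finset.mul_sum, ← Finset.sum_add_distrib]
    refine sum_avg4 R.phi _ _ fun d => ?_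
    simp only [R.sh_phi, R.lat_phi]
    by_cases l : R.Lat o b k d
    swap
    · simp [l]
    have r := l.2.1
    have s := l.1
    simp only [r.1, hX, Set.mem_ofPred_eq, r.cls_phi_phi, r.phi.cls_phi_phi, R.phi_fst,
      r.phi_phi_phi_snd, l.2.2.1, l.2.2.2]
    rcases l.cases h.hm with ⟨a, b, c, e⟩ | ⟨a, b, c, e⟩
    · have o1 : _ ∉ O := (hF.noObt _ s a).1
      have o2 : _ ∉ O := (hF.noObt _ (by simp only [R.sh_phi]; exact s) c).1
      by_cases c1 : d.fst ∈ O <;> by_cases c3 : (R.phi d).snd ∈ O <;>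
        simp [l, s, b, e, o1, o2, c1, c3]
    · have o1 : _ ∉ O := (hF.noObt _ (by simp only [R.sh_phi]; exact s) b).1
      have o2 : _ ∉ O := (hF.noObt _ (by simp only [R.sh_phi]; exact s) e).1
      rw [r.phi_phi_phi_snd] at o2
      by_cases c1 : d.snd ∈ O <;> by_cases c3 : (R.phi (R.phi d)).snd ∈ O <;>
        simp [l, s, a, c, o1, o2, c1, c3]
  have h4 := lat_card h k
  have h5 := h.comps_le k Hn cn (fun v a => a.1) fun v a => a.2.1
  have nk : ∀ d, cls p d ≠ k → d ∈ Xᶜ := fun d a c => a c.1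
  have h6 := const_le_reps Xᶜ (insert o.snd (((fun d : G.Dart => d.snd) ''
      {d | R.phi.SameCycle b d ∧ cls p d = k}) ∪ Quotient.out '' (comp G p k '' Hn)))
      fun f hf h0 v => by
    have zo : ∀ v ∈ O, f v = 0 := fun v hv => by
      rw [R.const_side nk (fun d a c => nO d c a) hf hv]
      exact h0 _ (Set.mem_insert _ _)
    by_cases c1 : v ∈ O
    · exact zo v c1
    by_cases c2 : v ∈ R.side k b
    · obtain ⟨e, a, c⟩ := R.side_rep hJ c2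
      rw [← const_comp nk hf c]
      exact h0 _ (Set.mem_insert_of_mem _ (Or.inl ⟨e, a, rfl⟩))
    by_cases c3 : v ∈ Hx
    · obtain ⟨e, a, c⟩ := c3.2.2
      rw [← const_comp nk hf c, ← hf e fun z => z.2.1 a]
      exact zo _ a
    · rw [← const_comp nk hf (u := (comp G p k v).out) (Quotient.out_eq _)]
      exact h0 _ (Set.mem_insert_of_mem _ (Or.inr ⟨_, ⟨v, ⟨c1, c2, c3⟩, rfl⟩, rfl⟩))
  have h7 := (Set.ncard_insert_le o.snd _).trans (Nat.add_le_add_right (Set.ncard_union_le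
    ((fun d : G.Dart => d.snd) '' {d | R.phi.SameCycle b d ∧ cls p d = k})
    (Quotient.out '' (comp G p k '' Hn))) 1)
  have h8 := Set.ncard_image_le (s := comp G p k '' Hn) (f := Quotient.out) (Set.toFinite _)
  have h9 : ((fun d : G.Dart => d.snd) '' {d | R.phi.SameCycle b d ∧ cls p d = k}).ncard ≤
      R.flk k b := Set.ncard_image_le (Set.toFinite _)
  have sh : ∀ d : G.Dart, d.snd ∉ O → d.snd ∉ R.side k b → R.Sh o b d := fun d a c =>
    ⟨fun z => a (R.snd_mem_side k z), fun z => c (R.snd_mem_side k z)⟩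
  have h10 := R.corner_count h.hm h.hreg k Hx
    (fun d a => ⟨cx _ _ (comp_dart k d a), cx _ _ (comp_dart k d a).symm⟩)
    fun d a => h.good d (sh d a.1 a.2.1)
  have h11 : {d : G.Dart | d.snd ∈ Hx ∧ R.Obt k d}.ncard +
      {d : G.Dart | d.snd ∈ Hn ∧ R.Obt k d}.ncard ≤ {d | R.Sh o b d ∧ R.Obt k d}.ncard := by
    rw [← Set.ncard_union_eq (Set.disjoint_left.2 fun d a c => c.1.2.2 a.1)]
    refine Set.ncard_le_ncard ?_ (Set.toFinite _)
    rintro d (a | a)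
    exacts [⟨sh d a.1.1 a.1.2.1, a.2⟩, ⟨sh d a.1.1 a.1.2.1, a.2⟩]
  have h12 : R.uS o b k ≤ {d : G.Dart | d.snd ∈ Hx ∧ R.Tri d}.ncard :=
    Set.ncard_le_ncard_of_injOn R.phi (fun d a => by
      have z : (R.phi d).fst ∈ O := by rw [R.phi_fst]; exact a.2.2.2.2.1
      exact ⟨⟨a.2.2.2.2.2, nob _ z, _, z, rfl⟩, a.2.2.1.phi⟩) R.phi.injective.injOn
  have h13 : yT + aO ≤ R.yS o b k := by
    rw [hyT, haO, ← Set.ncard_union_eq (Set.disjoint_left.2 fun d a c =>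
      a.2.2.2.1.not_rho c.2.2.1)]
    refine Set.ncard_le_ncard ?_ (Set.toFinite _)
    rintro d (a | a)
    exacts [⟨a.1, a.2.1, a.2.2.1, Or.inl a.2.2.2⟩, ⟨a.1, a.2.2.2.1, a.2.1, Or.inr a.2.2⟩]
  omega

end Pool.Agent.Mst
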