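import Pool.Agent.P.MP_e0c7cd_co.x.XR

namespace Pool.Agent.Mst

open Complex Real

variable {V : Type} {G : SimpleGraph V} {p : V → ℂ} {R : Rot G p} {o b : G.Dart} {k : ℂ}

/-- The components that contain the head of a dart of `I`. -/
def reg (p : V → ℂ) (k : ℂ) (I : Set G.Dart) : Set V :=
  {v | ∃ e ∈ I, comp G p k e.snd = comp G p k v}

theorem reg_comp {I : Set G.Dart} {u v : V} (h : comp G p k u = comp G p k v) :
    u ∈ reg p k I ↔ v ∈ reg p k I := by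
  simp only [reg, Set.mem_ofPred_eq, h]

theorem reg_side {I : Set G.Dart} {x : G.Dart} (hI : ∀ e ∈ I, R.phi.SameCycle x e ∧ cls p e = k)
    {v : V} (hv : v ∈ reg p k I) : v ∈ R.side k x := by
  obtain ⟨e, he, h⟩ := hv
  exact ⟨e, (hI e he).1, h⟩

theorem reg_mem {I : Set G.Dart} {x : G.Dart} (hx : R.Inj k x)
    (hI : ∀ e ∈ I, R.phi.SameCycle x e ∧ cls p e = k) {d : G.Dart} (h1 : R.phi.SameCycle x d)
    (h2 : cls p d = k) : d.snd ∈ reg p k I ↔ d ∈ I :=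
  ⟨fun ⟨e, he, h⟩ => hx e d (hI e he).1 h1 (hI e he).2 h2 h ▸ he, fun h => ⟨d, h, rfl⟩⟩

/-- Number of darts with property `P` and head in `Y`. -/
noncomputable def cnt (P : G.Dart → Prop) (Y : Set V) : ℕ := {d | P d ∧ d.snd ∈ Y}.ncard

theorem cnt_split [Fintype V] (P : G.Dart → Prop) {Y Z W : Set V} (h : ∀ v, v ∈ Y ↔ v ∈ Z ∨ v ∈ W)
    (hd : ∀ v ∈ Z, v ∉ W) : cnt P Y = cnt P Z + cnt P W := by
  classical
  unfold cnt
  rw [← Set.ncard_union_eq (Set.disjoint_left.2 fun d a c => hd _ a.2 c.2)]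
  congr 1
  ext d
  simp only [Set.mem_ofPred_eq, Set.mem_union, h, and_or_left]

def Rot.PT (R : Rot G p) (o b : G.Dart) (k : ℂ) (d : G.Dart) : Prop :=
  R.Sh o b d ∧ R.Tri d ∧ cls p d ≠ k

def Rot.PC (R : Rot G p) (o b : G.Dart) (k : ℂ) (d : G.Dart) : Prop :=
  R.Sh o b d ∧ cls p d = k ∧ (R.Tri d ∨ R.Acu k d)

theorem Rot.Two.sub_rank [Fintype V] (h : R.Two o b) (hF : R.Facts o b k) (e : G.Dart)
    (he : cls p e = k) (I : Set G.Dart) (hI : ∀ e ∈ I, R.phi.SameCycle o e ∧ cls p e = k) :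
    cnt (R.PT o b k) (reg p k I) + 3 * cnt (R.PC o b k) (reg p k I) ≤
      3 * cnt (R.phi.SameCycle o) (reg p k I) + 6 * I.ncard := by
  classical
  have hm := h.hm
  set Y := reg p k I with hY
  have yd : ∀ d : G.Dart, cls p d ≠ k → (d.fst ∈ Y ↔ d.snd ∈ Y) := fun d a =>
    reg_comp (comp_dart k d a)
  have yp : ∀ d : G.Dart, cls p (R.phi d) ≠ k → ((R.phi d).snd ∈ Y ↔ d.snd ∈ Y) := fun d a =>
    reg_comp (comp_phi R a)
  set A : Set G.Dart := {d | R.PT o b k d ∧ d.snd ∈ Y} with hA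
  set B : Set G.Dart := {d | R.Sh o b d ∧ R.Rho d ∧ cls p d ≠ k ∧
      cls p (R.phi d) ≠ k ∧ d.snd ∈ Y} with hB
  set S : Set G.Dart := {d | cls p d ≠ k ∧ d.snd ∈ Y} with hS
  have h1 := finrank_invSub R.phi A B
    (fun d hd => by
      have a : cls p (R.phi d) ≠ k := by rw [hd.1.2.1.cls_phi hm]; exact hd.1.2.2
      exact ⟨⟨⟨(R.sh_phi _ _ _).2 hd.1.1, hd.1.2.1.phi, a⟩, (yp d a).2 hd.2⟩, hd.1.2.1.1,
        R.phi_ne d⟩)
    (fun d hd => ⟨⟨(R.sh_phi _ _ _).2 hd.1, hd.2.1.phi, hd.2.2.2.1,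
      by rw [hd.2.1.cls_phi_phi]; exact hd.2.2.1, (yp d hd.2.2.2.1).2 hd.2.2.2.2⟩,
      hd.2.1.1, hd.2.1.phi_phi_ne hm⟩)
    (Set.disjoint_left.2 fun d d1 d2 => d1.1.2.1.not_rho d2.2.1)
  have sS : ∀ d ∈ S, d.symm ∈ S := fun d hd =>
    ⟨by rw [cls_symm]; exact hd.1, (yd d hd.1).2 hd.2⟩
  have hN : A ∪ B ⊆ S := by
    rintro d (hd | hd)
    exacts [⟨hd.1.2.2, hd.2⟩, ⟨hd.2.2.1, hd.2.2.2.2⟩]
  have h2 := R.inv_le_cyc hm h.hc e (A ∪ B) S hN (fun d hd => by simpa using sS _ hd)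
    fun hd => (hN hd).1 he
  have h3 := finrank_cyc (G := G) S sS
  have h4 := const_le_reps S (((fun d : G.Dart => d.snd) '' I) ∪ Yᶜ) fun f hf h0 v => by
    by_cases c : v ∈ Y
    · obtain ⟨a, ha, hq⟩ := id c
      have := const_comp (S := {d | cls p d ≠ k}) (fun d a => a)
        (f := fun v => if v ∈ Y then f v else 0) (fun d hd => by
          by_cases z : d.snd ∈ Y
          · simp only [z, (yd d hd).2 z, if_true]
            exact hf d ⟨hd, z⟩
          · simp only [z, mt (yd d hd).1 z, if_false]) hq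
      have c' : a.snd ∈ Y := (reg_comp hq).2 c
      simp only [c, c', if_true] at this
      rw [← this]
      exact h0 _ (Or.inl ⟨a, ha, rfl⟩)
    · exact h0 _ (Or.inr c)
  have h5 := Set.ncard_union_le ((fun d : G.Dart => d.snd) '' I) Yᶜ
  have h6 : ((fun d : G.Dart => d.snd) '' I).ncard ≤ I.ncard :=
    Set.ncard_image_le (Set.toFinite _)
  have h7 := TSide_heads h.hreg Y
  have h8 : Y.ncard + Yᶜ.ncard = Fintype.card V := by
    rw [Set.ncard_add_ncard_compl, Nat.card_eq_fintype_card]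
  have h9 : {d | R.Sh o b d ∧ R.Rho d ∧ cls p d = k ∧ cls p (R.phi d) ≠ k ∧ d.snd ∈ Y}.ncard =
      {d | R.Sh o b d ∧ R.Rho d ∧ cls p d ≠ k ∧ cls p (R.phi d) = k ∧ d.snd ∈ Y}.ncard := by
    refine nc_perm R.phi fun d => ?_
    rw [R.sh_phi]
    exact ⟨fun ⟨b1, b2, b3, b4, b5⟩ => ⟨b1, b2.phi, b4, b2.cls_phi_phi.trans b3, (yp d b4).2 b5⟩,
      fun ⟨b1, b2, b3, b4, b5⟩ => ⟨b1, b2.of_phi, b2.of_phi.cls_phi_phi.symm.trans b4, b3,
        (yp d b3).1 b5⟩⟩
  have h10 : I.ncard = {d | R.phi.SameCycle o d ∧ cls p d = k ∧ d.snd ∈ Y}.ncard :=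
    nc_congr (P := fun d => d ∈ I) fun d => ⟨fun a => ⟨(hI d a).1, (hI d a).2, d, a, rfl⟩,
      fun a => (reg_mem hF.injO hI a.1 a.2.1).1 a.2.2⟩
  have h11 : A.ncard + 3 * cnt (R.PC o b k) Y + 6 * S.ncard + 6 * I.ncard +
      3 * {d | R.Sh o b d ∧ R.Rho d ∧ cls p d = k ∧ cls p (R.phi d) ≠ k ∧ d.snd ∈ Y}.ncard ≤
      4 * A.ncard + 3 * B.ncard + 3 * {d : G.Dart | d.snd ∈ Y}.ncard +
      3 * cnt (R.phi.SameCycle o) Y +
      3 * {d | R.Sh o b d ∧ R.Rho d ∧ cls p d ≠ k ∧ cls p (R.phi d) = k ∧ d.snd ∈ Y}.ncard := by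
    rw [h10]
    simp only [hA, hB, hS, cnt, Rot.PT, Rot.PC, TFull_nc, Finset.mul_sum,
      ← Finset.sum_add_distrib]
    refine Finset.sum_le_sum fun d _ => ?_
    by_cases hs : d.snd ∈ Y
    swap
    · simp [hs]
    by_cases ho : R.phi.SameCycle o d
    · have hsh : ¬ R.Sh o b d := fun h => h.1 ho
      by_cases hc : cls p d = k <;> simp [hs, ho, hsh, hc]
    have hsh : R.Sh o b d := ⟨ho, fun hb =>
      Set.disjoint_left.1 hF.disj (reg_side hI hs) (R.snd_mem_side k hb)⟩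
    rcases h.good d hsh with ht | hr
    · by_cases hc : cls p d = k <;> simp [hs, ho, hsh, ht, ht.not_rho, hc]
    · have ht : ¬ R.Tri d := fun ht => ht.not_rho hr
      by_cases hc' : cls p (R.phi d) = k
      · by_cases hc : cls p d = k
        · by_cases ha : R.Acu k d <;> simp [hs, ho, hsh, ht, hr, hc, hc', ha]
        · simp [hs, ho, hsh, ht, hr, hc, hc']
      · have ha : ¬ R.Acu k d := fun ha => hc' ha.2.2.1
        by_cases hc : cls p d = k <;> simp [hs, ho, hsh, ht, hr, hc, hc', ha]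
  have h12 : cnt (R.PT o b k) Y = A.ncard := rfl
  omega

theorem Rot.rho_rho_ne [Fintype V] (R : Rot G p) (hm : IsMatchstick G p) (hreg : Reg4 G)
    (a : G.Dart) : R.rho (R.rho a) ≠ a := by
  intro h
  have h1 : {d : G.Dart | d.fst = a.fst} ⊆ {a, R.rho a} := fun d hd => by
    have := R.const_of_rho hm (fun x => x = a ∨ x = R.rho a) (fun x => propext ⟨fun z => by
      rcases z with z | z
      · exact Or.inr (R.rho.injective (z.trans h.symm))
      · exact Or.inl (R.rho.injective z), fun z => by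
      rcases z with rfl | rfl
      exacts [Or.inr rfl, Or.inl h]⟩) (a := d) (b := a) hd
    simpa using this
  have h2 := Set.ncard_le_ncard h1 (Set.toFinite _)
  have h3 := Set.ncard_insert_le a {R.rho a}
  rw [hreg a.fst] at h2
  rw [Set.ncard_singleton] at h3
  omega

theorem Rot.prev_symm (R : Rot G p) (d : G.Dart) : (R.phi.symm d.symm).snd = d.snd := by
  rw [← R.phi_fst, Equiv.apply_symm_apply]
  rfl

theorem Rot.same_symm (R : Rot G p) (x d : G.Dart) :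
    R.phi.SameCycle x (R.phi.symm d) ↔ R.phi.SameCycle x d := by
  rw [← R.same_phi, Equiv.apply_symm_apply]

theorem Rot.Two.corner_le [Fintype V] (h : R.Two o b) (hs : R.Simple o) (I : Set G.Dart)
    (hI : ∀ e ∈ I, R.phi.SameCycle o e ∧ cls p e = k) :
    cnt (fun d => R.PT o b k d ∧ ∃ e, R.phi.SameCycle o e ∧ e.snd = d.snd) (reg p k I) +
      2 * I.ncard ≤ 3 * cnt (R.phi.SameCycle o) (reg p k I) := by
  classical
  set Y := reg p k I with hY
  have f1 : ∀ d, R.phi.SameCycle o d → ¬ R.phi.SameCycle o d.symm := fun d a c => by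
    have := hs _ _ ((R.same_symm o _).2 c) a (R.prev_symm d)
    rw [Equiv.symm_apply_eq] at this
    exact R.rho_ne_of_reg h.hreg _ this.symm
  have f2 : ∀ d : G.Dart, R.phi.SameCycle o d.symm → ¬ R.phi.SameCycle o (R.phi d).symm :=
    fun d a c => by
      have := hs _ _ ((R.same_symm o _).2 a) c ((R.prev_symm d).trans (R.phi_fst d).symm)
      rw [Equiv.symm_apply_eq, R.phi_apply, SimpleGraph.Dart.symm_symm, R.phi_apply] at this
      exact R.rho_rho_ne h.hm h.hreg _ this.symm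
  have h1 := TSide_heads h.hreg ((fun d : G.Dart => d.snd) '' {d | R.phi.SameCycle o d ∧ d.snd ∈ Y})
  have h2 : ((fun d : G.Dart => d.snd) '' {d | R.phi.SameCycle o d ∧ d.snd ∈ Y}).ncard ≤
      cnt (R.phi.SameCycle o) Y := Set.ncard_image_le (Set.toFinite _)
  have h3 : {d | (R.phi d).symm ∈ I}.ncard = I.ncard :=
    nc_perm (Q := fun d => d ∈ I) (symmPerm G * R.phi) fun d => Iff.rfl
  have h4 : {d : G.Dart | R.phi.SameCycle o d.symm ∧ cls p d = k ∧ d.snd ∈ Y}.ncard =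
      {d | (R.phi.SameCycle o d ∧ d.fst ∈ Y) ∧ cls p d = k}.ncard :=
    nc_perm (symmPerm G) fun d => ⟨fun a => ⟨⟨a.1, a.2.2⟩, (cls_symm d).trans a.2.1⟩,
      fun a => ⟨a.1.1, (cls_symm d).symm.trans a.2, a.1.2⟩⟩
  have h5 := nc_split (fun d => R.phi.SameCycle o d ∧ d.fst ∈ Y) fun d => cls p d = k
  have h6 := nc_split (fun d => R.phi.SameCycle o d ∧ d.snd ∈ Y) fun d => cls p d = k
  have h7 : {d | R.phi.SameCycle o d ∧ d.snd ∈ Y}.ncard =
      {d | R.phi.SameCycle o d ∧ d.fst ∈ Y}.ncard :=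
    nc_perm R.phi fun d => by rw [R.same_phi, R.phi_fst]
  have h8 : {d | (R.phi.SameCycle o d ∧ d.fst ∈ Y) ∧ ¬ cls p d = k}.ncard =
      {d | (R.phi.SameCycle o d ∧ d.snd ∈ Y) ∧ ¬ cls p d = k}.ncard :=
    nc_congr fun d => and_congr_left fun a => and_congr_right fun _ => reg_comp (comp_dart k d a)
  have h9 : I.ncard ≤ {d | (R.phi.SameCycle o d ∧ d.snd ∈ Y) ∧ cls p d = k}.ncard :=
    Set.ncard_le_ncard (fun d a => ⟨⟨(hI d a).1, d, a, rfl⟩, (hI d a).2⟩) (Set.toFinite _)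
  have h10 : cnt (fun d => R.PT o b k d ∧ ∃ e, R.phi.SameCycle o e ∧ e.snd = d.snd) Y +
      cnt (R.phi.SameCycle o) Y + {d | (R.phi d).symm ∈ I}.ncard +
      {d : G.Dart | R.phi.SameCycle o d.symm ∧ cls p d = k ∧ d.snd ∈ Y}.ncard ≤
      {d : G.Dart | d.snd ∈
        (fun d : G.Dart => d.snd) '' {d | R.phi.SameCycle o d ∧ d.snd ∈ Y}}.ncard := by
    simp only [cnt, TFull_nc, ← Finset.sum_add_distrib]
    refine Finset.sum_le_sum fun d _ => ?_
    have g : ∀ e, R.phi.SameCycle o e → e.snd = d.snd → d.snd ∈ Y → d.snd ∈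
        (fun d : G.Dart => d.snd) '' {d | R.phi.SameCycle o d ∧ d.snd ∈ Y} :=
      fun e a c z => ⟨e, ⟨a, c ▸ z⟩, c⟩
    by_cases c1 : (R.PT o b k d ∧ ∃ e, R.phi.SameCycle o e ∧ e.snd = d.snd) ∧ d.snd ∈ Y
    · obtain ⟨e, a, c⟩ := c1.1.2
      rw [if_pos c1, if_neg fun z => c1.1.1.1.1 z.1, if_neg fun z => c1.1.1.2.2 (by
        rw [← c1.1.1.2.1.cls_phi h.hm, ← cls_symm]; exact (hI _ z).2),
        if_neg fun z => c1.1.1.2.2 z.2.1, if_pos (g e a c c1.2)]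
    rw [if_neg c1]
    by_cases c2 : R.phi.SameCycle o d ∧ d.snd ∈ Y
    · rw [if_pos c2, if_neg fun z => f1 _ ((R.same_phi o d).2 c2.1) (hI _ z).1,
        if_neg fun z => f1 _ c2.1 z.1, if_pos (g d c2.1 rfl c2.2)]
    rw [if_neg c2]
    by_cases c3 : (R.phi d).symm ∈ I
    · rw [if_pos c3, if_neg fun z => f2 _ z.1 (hI _ c3).1,
        if_pos (g _ (hI _ c3).1 (R.phi_fst d) ⟨_, c3, congrArg _ (R.phi_fst d)⟩)]
    rw [if_neg c3]
    by_cases c4 : R.phi.SameCycle o d.symm ∧ cls p d = k ∧ d.snd ∈ Y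
    · rw [if_pos c4, if_pos (g _ ((R.same_symm o _).2 c4.1) (R.prev_symm d) c4.2.2)]
    · rw [if_neg c4]
      exact Nat.zero_le _
  omega

theorem cnt_sum [Fintype V] {x : G.Dart} (hx : R.Inj k x) (P : G.Dart → Prop) (I : Finset G.Dart)
    (hI : ∀ e ∈ I, R.phi.SameCycle x e ∧ cls p e = k) :
    cnt P (reg p k (I : Set G.Dart)) = ∑ e ∈ I, cnt P (reg p k {e}) := by
  classical
  induction I using Finset.induction_on with
  | empty => simp [cnt, reg]
  | insert a I ha ih =>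
    rw [Finset.sum_insert ha, ← ih fun e he => hI e (Finset.mem_insert_of_mem he)]
    refine cnt_split P (fun v => by simp [reg]) ?_
    rintro v ⟨_, rfl, h1⟩ ⟨e, he, h2⟩
    have a1 := hI _ (Finset.mem_insert_self _ _)
    have a2 := hI e (Finset.mem_insert_of_mem he)
    exact ha (hx _ _ a2.1 a1.1 a2.2 a1.2 (h2.trans h1.symm) ▸ he)

end Pool.Agent.Mst
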