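import Pool.Agent.P.MP_e0c7cd_co.Basic

namespace Pool.Agent.Mst.Ring

/-- Coordinates in the basis of the first four powers of a primitive twelfth root of unity. -/
abbrev Z4 := ℤ × ℤ × ℤ × ℤ

def rot (t : Z4) : Z4 := (-t.2.2.2, t.1, t.2.1 + t.2.2.2, t.2.2.1)

def q0 : ℕ → Z4
  | 0 => (0, 0, -2, -2)
  | 1 => (1, 0, -2, -2)
  | 2 => (0, 0, -1, -2)
  | 3 => (1, 0, -1, -2)
  | _ => (0, 0, -1, -1)

def co (v : ℕ) : Z4 := rot^[v / 5] (q0 (v % 5))

def tD : ℕ := 5972660061433807245642121638318257933366786396077514316601208484374445545868412643341340787442500417677999368094929214670471984468956041421318367931587557263556866399036519344979946430662778980101181524100575309998839558468801483669701556667286118441316328880759992643051647517616363790452117610401722179940549154767476520800719704372898691510581677348843471372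

def tN : ℕ := 63633685451150341820983569653318836622542449258810537596445610443270762771521938812051851119548278307639511459630337517358378668720365428132110802911404008861783448748418158885454622247736522603885795457315251246284475965190127861390415424043502222324735174371369194340674571184620305929007012242480481552971731343237154455487116072004120023451446654501282860784255812329309870069351164835793506936758337502170625310052097248119037049287484692356972044488872395121340008106209702644342423017598258224756369250880971682381071085048931073147008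

def tB : ℕ := 1244249939843125218312338533830590593

def tX : ℕ := 1080782041360539749656330967316990777018820815602136016988171015764613208921715033519227992078707503261661531220516150054464717419283355756357716706701548823977690818602343994100469796125819256402276107256992680001140669364821090693258537263651422505915498950448809698887841164022959316800

def d0 (u v : ℕ) : ℕ := tD >>> (4 * (60 * (u % 5) + (v + 60 - 5 * (u / 5)) % 60)) % 16

def dr (u v : ℕ) : ℕ := (d0 u v + u / 5) % 12

def nx (u v : ℕ) : ℕ :=
  (tN >>> (6 * (60 * (u % 5) + (v + 60 - 5 * (u / 5)) % 60)) % 64 + 5 * (u / 5)) % 60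

def nb (u i : ℕ) : ℕ := (tB >>> (6 * (4 * (u % 5) + i)) % 64 + 5 * (u / 5)) % 60

def xa (k v : ℕ) : ℕ := tX >>> (16 * ((v + 5 * k) % 60)) % 65536

def sepB (u v x y : ℕ) : Bool :=
  (List.range 12).any fun k => Nat.blt (max (xa k u) (xa k v) + 2) (min (xa k x) (xa k y))

def st (d : ℕ × ℕ) : ℕ × ℕ := (d.2, nx d.1 d.2)

theorem t_sep : ((List.range 60).all fun u => (List.range 4).all fun i => (List.range 60).all
    fun x => (List.range 4).all fun j => Nat.beq u x || Nat.beq u (nb x j) || Nat.beq (nb u i) x ||
      Nat.beq (nb u i) (nb x j) || sepB u (nb u i) x (nb x j)) = true := by decide +kernel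

theorem t_inj : ∀ u < 60, ∀ v < 60, u = v ∨ sepB u u v v = true := by decide +kernel

theorem t_nb : ∀ u < 60, ∀ v < 60, d0 u v < 12 → ∃ i < 4, nb u i = v := by decide +kernel

theorem t_symm : ∀ u < 60, ∀ v < 60, d0 u v < 12 → d0 v u < 12 ∧ u ≠ v := by decide +kernel

theorem t_dr : ∀ u < 60, ∀ v < 60, 12 ≤ d0 u v ∨ co v - co u = rot^[dr u v] (1, 0, 0, 0) := by
  decide +kernel

theorem t_xa : ∀ v < 60, (xa 0 v : ℤ) = 2000 * (co v).1 + 1732 * (co v).2.1 +
    1000 * (co v).2.2.1 + 10000 ∧ -2 ≤ (co v).2.1 ∧ (co v).2.1 ≤ 2 := by decide +kernel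

theorem t_rot : ∀ v < 60, ∀ k < 12, rot^[k] (co v) = co ((v + 5 * k) % 60) := by decide +kernel

theorem t_nx : ∀ u < 60, ∀ v < 60, 12 ≤ d0 u v ∨ d0 v (nx u v) < 12 := by decide +kernel

def nxB (u v y : ℕ) : Bool := Nat.ble 12 (d0 v y) || Nat.beq y (nx u v) ||
  Nat.blt ((dr v u + 11 - dr v (nx u v)) % 12) ((dr v u + 11 - dr v y) % 12)

theorem t_nx' : ∀ u < 60, ∀ v < 60, 12 ≤ d0 u v ∨ ∀ y < 60, nxB u v y = true := by decide +kernel

def faceB (d : ℕ × ℕ) : Bool := decide (st (st (st d)) = d) || decide (st (st (st (st d))) = d) ||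
  ((List.range 24).any fun i => decide (st^[i] (0, 56) = d)) ||
    (List.range 12).any fun i => decide (st^[i] (4, 9) = d)

theorem t_face : ∀ u < 60, ∀ v < 60, 12 ≤ d0 u v ∨ faceB (u, v) = true := by decide +kernel

theorem t_conn : ∀ v < 60, v = 0 ∨ ∃ u < v, d0 u v < 12 := by decide +kernel

theorem t_deg : ∀ v : Fin 60, (Finset.univ.filter fun u : Fin 60 => d0 v u < 12).card = 4 := by
  decide +kernel

end Pool.Agent.Mst.Ring
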