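import Pool.Agent.P.MP_e0c7cd_co.x.XC

namespace Pool.Agent.Mst

open Complex Real

variable {V : Type} {G : SimpleGraph V} {p : V → ℂ} {R : Rot G p} {o b : G.Dart} {k : ℂ}

theorem three_unit {a b c : ℂ} (ha : ‖a‖ = 1) (hb : ‖b‖ = 1) (hc : ‖c‖ = 1) (h : a + b + c = 0) :
    a ^ 6 = b ^ 6 := by
  have u : ∀ z : ℂ, ‖z‖ = 1 → z * (starRingEnd ℂ) z = 1 := fun z hz => by
    rw [Complex.mul_conj, Complex.normSq_eq_norm_sq, hz]
    simp
  have h4 : (starRingEnd ℂ) a + (starRingEnd ℂ) b + (starRingEnd ℂ) c = 0 := by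
    simpa using congrArg (starRingEnd ℂ) h
  have h5 : a * b + b * c + c * a = 0 := by
    linear_combination a * b * c * h4 - b * c * u a ha - a * c * u b hb - a * b * u c hc
  linear_combination (a ^ 3 + b ^ 3) * (a - b) * ((a + b) * h - h5)

theorem Rot.Two.y_three [Fintype V] (h : R.Two o b) {k1 k2 k3 : ℂ} (h12 : k1 ≠ k2) (h13 : k1 ≠ k3)
    (h23 : k2 ≠ k3) (hall : ∀ d : G.Dart, cls p d = k1 ∨ cls p d = k2 ∨ cls p d = k3)
    (F1 : R.Facts o b k1) (F2 : R.Facts o b k2) (F3 : R.Facts o b k3) (y1 : R.yS o b k1 = 1)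
    (y2 : R.yS o b k2 = 1) (y3 : R.yS o b k3 = 1) : False := by
  classical
  obtain ⟨a1, b1⟩ := h.y_one F1 y1
  obtain ⟨a2, b2⟩ := h.y_one F2 y2
  obtain ⟨a3, -⟩ := h.y_one F3 y3
  refine h12 (b1.symm.trans ((three_unit a1 a2 a3 ?_).trans b2))
  rw [← R.face_sum b]
  simp only [Finset.sum_filter, ← Finset.sum_add_distrib]
  refine Finset.sum_congr rfl fun d _ => ?_
  rcases hall d with a | a | a <;> simp [a, h12, h13, h23, h12.symm, h13.symm, h23.symm]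

/-- Vertices carrying a corner of class `k` on the side of `b`. -/
def Rot.cv (R : Rot G p) (o b : G.Dart) (k : ℂ) : Set V :=
  {v | v ∈ R.side k b ∧ ∃ d, R.PC b o k d ∧ d.snd = v}

theorem Rot.Two.cv_disj [Fintype V] (hL : ∀ d, ¬ R.Lat o b k d) {l : ℂ} (hl : k ≠ l)
    (h0 : R.tS b o l = 0) {v : V} (hv : v ∈ R.cv o b k) : v ∉ R.side l b := by
  classical
  obtain ⟨-, d, ⟨a1, a2, a3⟩, rfl⟩ := hv
  exact fun z => Set.eq_empty_iff_forall_notMem.1 ((Set.ncard_eq_zero (Set.toFinite _)).1 h0) d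
    ⟨a1, a3.resolve_right fun y => hL d ⟨(R.sh_comm _ _ _).1 a1, y.1, y.2.1, y.2.2.1⟩,
      a2 ▸ hl, z⟩

theorem Rot.Two.cv_card [Fintype V] (h : R.Two o b) (hF : R.Facts o b k)
    (hL : ∀ d, ¬ R.Lat o b k d) {l : ℂ} (hl : k ≠ l) (h0 : R.tS b o l = 0) :
    R.cS b o k ≤ 2 * (R.cv o b k).ncard := by
  classical
  refine le_trans (Set.ncard_le_ncard (fun d a => ?_) (Set.toFinite _))
    (TWeight_fiber (fun d : G.Dart => d.snd) (R.cv o b k) (R.PC b o k) fun v hv => ?_)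
  · exact ⟨⟨a.1, a.2.1, a.2.2.1⟩, a.2.2.2, d, ⟨a.1, a.2.1, a.2.2.1⟩, rfl⟩
  · refine le_trans (Set.ncard_le_ncard ?_ (Set.toFinite _)) (h.vertex_le v
      (fun e a c => Set.disjoint_left.1 hF.disj (c ▸ R.snd_mem_side k a) hv.1)
      fun e a c => Rot.Two.cv_disj hL hl h0 hv (c ▸ R.snd_mem_side l a))
    rintro d ⟨a1, -, rfl, a2⟩
    exact ⟨a1, Or.inr ⟨a2, hv.1⟩⟩

theorem Rot.Two.parity [Fintype V] (h : R.Two o b) (ho : R.Simple o) (hb : R.Simple b)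
    {k1 k2 k3 : ℂ} (h12 : k1 ≠ k2) (h13 : k1 ≠ k3) (h23 : k2 ≠ k3)
    (F1 : R.Facts o b k1) (F2 : R.Facts o b k2) (F3 : R.Facts o b k3)
    (L1 : ∀ d, ¬ R.Lat o b k1 d) (L2 : ∀ d, ¬ R.Lat o b k2 d) (L3 : ∀ d, ¬ R.Lat o b k3 d)
    (t1 : R.tS b o k1 = 0) (t2 : R.tS b o k2 = 0) (t3 : R.tS b o k3 = 0) :
    R.fl o + R.fl b + (R.cS b o k1 + 1) / 2 + (R.cS b o k2 + 1) / 2 + (R.cS b o k3 + 1) / 2 ≤
      Fintype.card V := by
  classical
  have c1 := h.cv_card F1 L1 h12 t2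
  have c2 := h.cv_card F2 L2 h23 t3
  have c3 := h.cv_card F3 L3 h13.symm t1
  have c4 := TWeight_heads R ho
  have c5 := TWeight_heads R hb
  have c6 : {v | ∃ e, R.phi.SameCycle o e ∧ e.snd = v}.ncard +
      {v | ∃ e, R.phi.SameCycle b e ∧ e.snd = v}.ncard + {v | v ∈ R.cv o b k1}.ncard +
      {v | v ∈ R.cv o b k2}.ncard + {v | v ∈ R.cv o b k3}.ncard ≤ ∑ _v : V, 1 := by
    simp only [TFull_nc, ← Finset.sum_add_distrib]
    refine Finset.sum_le_sum fun v _ => ?_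
    have o1 : ∀ k, (∃ e, R.phi.SameCycle o e ∧ e.snd = v) → v ∈ R.side k o :=
      fun k ⟨e, a, c⟩ => c ▸ R.snd_mem_side k a
    have o2 : ∀ k, (∃ e, R.phi.SameCycle b e ∧ e.snd = v) → v ∈ R.side k b :=
      fun k ⟨e, a, c⟩ => c ▸ R.snd_mem_side k a
    by_cases a1 : v ∈ R.cv o b k1
    · rw [if_neg fun z => Set.disjoint_left.1 F1.disj (o1 _ z) a1.1,
        if_neg fun z => Rot.Two.cv_disj L1 h12 t2 a1 (o2 _ z), if_pos a1,
        if_neg fun z => Rot.Two.cv_disj L1 h12 t2 a1 z.1,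
        if_neg fun z => Rot.Two.cv_disj L1 h13 t3 a1 z.1]
    by_cases a2 : v ∈ R.cv o b k2
    · rw [if_neg fun z => Set.disjoint_left.1 F2.disj (o1 _ z) a2.1,
        if_neg fun z => Rot.Two.cv_disj L2 h23 t3 a2 (o2 _ z), if_neg a1, if_pos a2,
        if_neg fun z => Rot.Two.cv_disj L2 h23 t3 a2 z.1]
    by_cases a3 : v ∈ R.cv o b k3
    · rw [if_neg fun z => Set.disjoint_left.1 F3.disj (o1 _ z) a3.1,
        if_neg fun z => Rot.Two.cv_disj L3 h13.symm t1 a3 (o2 _ z), if_neg a1, if_neg a2,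
        if_pos a3]
    rw [if_neg a1, if_neg a2, if_neg a3]
    by_cases a4 : ∃ e, R.phi.SameCycle o e ∧ e.snd = v
    · rw [if_pos a4, if_neg fun z => Set.disjoint_left.1 F1.disj (o1 _ a4) (o2 _ z)]
    · rw [if_neg a4]
      split_ifs <;> omega
  simp only [Set.ofPred_mem_eq, Finset.sum_const, smul_eq_mul, mul_one, Finset.card_univ] at c6
  omega

end Pool.Agent.Mst
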